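import Mathlib

/-!
# Circle intersection of polygons in the Riemann sphere: definitions

The Riemann sphere is `OnePoint ℂ`. A polygon is a function `ℤ → OnePoint ℂ`
(periodic, for a closed polygon).
-/

namespace Pool.Agent.Circ543

/-- Circles of the Riemann sphere: Euclidean circles, and lines together with `∞`. -/
def IsCircle (S : Set (OnePoint ℂ)) : Prop :=
  (∃ (c : ℂ) (r : ℝ), 0 < r ∧ S = {p | ∃ z : ℂ, p = (z : OnePoint ℂ) ∧ ‖z - c‖ = r}) ∨
  (∃ a d : ℂ, d ≠ 0 ∧
    S = {p | p = OnePoint.infty ∨ ∃ t : ℝ, p = ((a + t * d : ℂ) : OnePoint ℂ)})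

/-- `S` is a circle through the three distinct points `p, q, r`. -/
def IsCircleThrough (S : Set (OnePoint ℂ)) (p q r : OnePoint ℂ) : Prop :=
  IsCircle S ∧ p ≠ q ∧ q ≠ r ∧ p ≠ r ∧ p ∈ S ∧ q ∈ S ∧ r ∈ S

/-- The circle intersection of the polygon `A` at the vertex `i` is defined and equal to `m`:
the circle `S` through `A (i - 2), A (i - 1), A i` and the circle `T` through
`A i, A (i + 1), A (i + 2)` are different and meet exactly in `A i` and `m`. -/
def IsOther (A : ℤ → OnePoint ℂ) (i : ℤ) (m : OnePoint ℂ) : Prop :=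
  ∃ S T : Set (OnePoint ℂ), IsCircleThrough S (A (i - 2)) (A (i - 1)) (A i) ∧
    IsCircleThrough T (A i) (A (i + 1)) (A (i + 2)) ∧ S ≠ T ∧ S ∩ T = {A i, m}

/-- Property (H) of the polygon `A` for the parity class of `c`: the circle intersections at the
vertices of that class are defined and are one and the same point. -/
def HasH (A : ℤ → OnePoint ℂ) (c : ℤ) : Prop :=
  ∃ m : OnePoint ℂ, ∀ i, Even (i - c) → IsOther A i m

/-- `B` is the result of one step of bipartite circle intersection applied to `A`, replacing the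
vertices of the parity class of `c`. -/
def BipartiteStep (c : ℤ) (A B : ℤ → OnePoint ℂ) : Prop :=
  ∀ i, (Even (i - c) → IsOther A i (B i)) ∧ (¬ Even (i - c) → B i = A i)

end Pool.Agent.Circ543
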