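import Mathlib
import Pool.Agent.Circ543.Defs

open Polynomial

namespace Pool.Agent.Circ543

/-! ### Brackets and the propagation step -/

section Alg

/-- The 2x2 determinant. -/
def br {R : Type*} [CommRing R] (u v : R × R) : R := u.1 * v.2 - u.2 * v.1

/-- `(br p q) vp = (br p q) vq + l x (br vq q) p`. -/
structure Rel {R : Type*} [CommRing R] (l : R) (p q : R × R) (x : R) (vp vq : R × R) : Prop where
  one : br p q * vp.1 = br p q * vq.1 + l * x * br vq q * p.1
  two : br p q * vp.2 = br p q * vq.2 + l * x * br vq q * p.2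

variable {R : Type*} [CommRing R] [IsDomain R]

theorem propagate (l : R) (a b c w : R × R) (x y g : R) (va vb vc vw : R × R)
    (hba : br b a ≠ 0) (hbc : br b c ≠ 0) (hg : g * br a c = 1)
    (hR : x * br b c * br w a = y * br w c * br b a)
    (h1 : Rel l b a x vb va) (h2 : Rel l b c y vb vc)
    (hw1 : vw.1 = g * (br vc c * a.1 - br va a * c.1))
    (hw2 : vw.2 = g * (br vc c * a.2 - br va a * c.2)) :
    Rel l a w y va vw := by
  -- E' : bracket of va - vc with c
  have hE : br b a * (br va c - br vc c) = l * (y * br b a * br vc c - x * br b c * br va a) := by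
    apply mul_left_cancel₀ hbc
    have e1 := h1.one
    have e2 := h1.two
    have e3 := h2.one
    have e4 := h2.two
    have k1 : br b a * br b c * (va.1 - vc.1) =
        l * (y * br b a * br vc c - x * br b c * br va a) * b.1 := by
      linear_combination (-br b c) * e1 + br b a * e3
    have k2 : br b a * br b c * (va.2 - vc.2) =
        l * (y * br b a * br vc c - x * br b c * br va a) * b.2 := by
      linear_combination (-br b c) * e2 + br b a * e4
    have k3 : br va c - br vc c = (va.1 - vc.1) * c.2 - (va.2 - vc.2) * c.1 := by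
      simp only [br]; ring
    have k4 : br b c = b.1 * c.2 - b.2 * c.1 := rfl
    rw [k3]
    linear_combination c.2 * k1 - c.1 * k2 -
      l * (y * br b a * br vc c - x * br b c * br va a) * k4
  have hwc : br vw c = br vc c := by
    have : br vw c = g * br a c * br vc c := by
      simp only [br, hw1, hw2]; ring
    rw [this, hg, one_mul]
  have hwa : br vw a = br va a := by
    have : br vw a = g * br a c * br va a := by
      simp only [br, hw1, hw2]; ring
    rw [this, hg, one_mul]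
  have hww : br vw w = g * (br vc c * br a w - br va a * br c w) := by
    simp only [br, hw1, hw2]; ring
  have hd1 : va.1 - vw.1 = g * (br va c - br vc c) * a.1 := by
    have : br a c * (va.1 - vw.1) = (br va c - br vw c) * a.1 - (br va a - br vw a) * c.1 := by
      simp only [br]; ring
    rw [hwc, hwa] at this
    linear_combination g * this - (va.1 - vw.1) * hg
  have hd2 : va.2 - vw.2 = g * (br va c - br vc c) * a.2 := by
    have : br a c * (va.2 - vw.2) = (br va c - br vw c) * a.2 - (br va a - br vw a) * c.2 := by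
      simp only [br]; ring
    rw [hwc, hwa] at this
    linear_combination g * this - (va.2 - vw.2) * hg
  have haw : br a w = - br w a := by simp only [br]; ring
  have hcw : br c w = - br w c := by simp only [br]; ring
  constructor
  · apply mul_left_cancel₀ hba
    rw [hww]
    linear_combination (br b a * br a w) * hd1 + (g * a.1 * br a w) * hE +
      (l * g * a.1 * br va a) * hR + (- l * g * a.1 * br va a * x * br b c) * haw +
      (l * g * a.1 * br va a * y * br b a) * hcw
  · apply mul_left_cancel₀ hba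
    rw [hww]
    linear_combination (br b a * br a w) * hd2 + (g * a.2 * br a w) * hE +
      (l * g * a.2 * br va a) * hR + (- l * g * a.2 * br va a * x * br b c) * haw +
      (l * g * a.2 * br va a * y * br b a) * hcw

theorem propagate' (l : R) (a b c w : R × R) (x y g : R) (va vb vc vw : R × R)
    (hba : br b a ≠ 0) (hbc : br b c ≠ 0) (hg : g * br a c = 1)
    (hR : x * br b c * br w a = y * br w c * br b a)
    (h1 : Rel l b a x vb va) (h2 : Rel l b c y vb vc)
    (hw1 : vw.1 = g * (br vc c * a.1 - br va a * c.1))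
    (hw2 : vw.2 = g * (br vc c * a.2 - br va a * c.2)) :
    Rel l c w x vc vw := by
  have hca : br c a = - br a c := by simp only [br]; ring
  apply propagate l c b a w y x (-g) vc vb va vw hbc hba _ _ h2 h1
  · rw [hw1]; ring
  · rw [hw2]; ring
  · rw [hca]; linear_combination hg
  · linear_combination -hR

/-- The initial step: from the transfer relation over `a, r, c` to the middle vertex `r`. -/
theorem initial_r (l : R) (a r c : R × R) (x y g u1 u2 : R) (va vc vr : R × R)
    (hy : 1 + l * y ≠ 0) (hg : g * br a c = 1) (hu1 : u1 * br r c = 1) (hu2 : u2 * br a r = 1)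
    (hN1 : (1 + l * y) * va.1 =
      vc.1 + l * y * u1 * br vc c * r.1 + l * x * u2 * br vc r * a.1)
    (hN2 : (1 + l * y) * va.2 =
      vc.2 + l * y * u1 * br vc c * r.2 + l * x * u2 * br vc r * a.2)
    (hr1 : vr.1 = g * (br vc c * a.1 - br va a * c.1))
    (hr2 : vr.2 = g * (br vc c * a.2 - br va a * c.2)) :
    Rel l a r x va vr ∧ Rel l c r y vc vr := by
  have n1 : (1 + l * y) * br va a = br vc a + l * y * br vc c * br r a * u1 := by
    simp only [br] at *
    linear_combination a.2 * hN1 - a.1 * hN2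
  have n3 : (1 + l * y) * br va c = (1 + l * y) * br vc c + l * x * u2 * br vc r * br a c := by
    have h0 : (1 + l * y) * br va c = br vc c + l * y * br vc c * (u1 * br r c) +
        l * x * u2 * br vc r * br a c := by
      simp only [br] at *
      linear_combination c.2 * hN1 - c.1 * hN2
    rw [h0, hu1]; ring
  have hwc : br vr c = br vc c := by
    have : br vr c = g * br a c * br vc c := by
      simp only [br, hr1, hr2]; ring
    rw [this, hg, one_mul]
  have hwa : br vr a = br va a := by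
    have : br vr a = g * br a c * br va a := by
      simp only [br, hr1, hr2]; ring
    rw [this, hg, one_mul]
  have hrr : br vr r = g * (br vc c * br a r - br va a * br c r) := by
    simp only [br, hr1, hr2]; ring
  have hd1 : va.1 - vr.1 = g * (br va c - br vc c) * a.1 := by
    have : br a c * (va.1 - vr.1) = (br va c - br vr c) * a.1 - (br va a - br vr a) * c.1 := by
      simp only [br]; ring
    rw [hwc, hwa] at this
    linear_combination g * this - (va.1 - vr.1) * hg
  have hd2 : va.2 - vr.2 = g * (br va c - br vc c) * a.2 := by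
    have : br a c * (va.2 - vr.2) = (br va c - br vr c) * a.2 - (br va a - br vr a) * c.2 := by
      simp only [br]; ring
    rw [hwc, hwa] at this
    linear_combination g * this - (va.2 - vr.2) * hg
  have hd3 : vc.1 - vr.1 = - (g * (br vc a - br va a) * c.1) := by
    have : br a c * (vc.1 - vr.1) = (br vc c - br vr c) * a.1 - (br vc a - br vr a) * c.1 := by
      simp only [br]; ring
    rw [hwc, hwa] at this
    linear_combination g * this - (vc.1 - vr.1) * hg
  have hd4 : vc.2 - vr.2 = - (g * (br vc a - br va a) * c.2) := by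
    have : br a c * (vc.2 - vr.2) = (br vc c - br vr c) * a.2 - (br vc a - br vr a) * c.2 := by
      simp only [br]; ring
    rw [hwc, hwa] at this
    linear_combination g * this - (vc.2 - vr.2) * hg
  have hcr : br c r = - br r c := by simp only [br]; ring
  have har : br a r = - br r a := by simp only [br]; ring
  have kc : br c r * (br vc a - br va a) = - (l * y * (br vc c * br a r - br va a * br c r)) := by
    rw [hcr, har]
    linear_combination (br r c) * n1 + (l * y * br vc c * br r a) * hu1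
  have ka : br a r * (br va c - br vc c) = l * x * (br vc c * br a r - br va a * br c r) := by
    apply mul_left_cancel₀ hy
    have pl : br vc c * br a r - br c r * br vc a = br vc r * br a c := by
      simp only [br]; ring
    have e1 : (1 + l * y) * (br a r * (br va c - br vc c)) = l * x * br vc r * br a c := by
      linear_combination br a r * n3 + (l * x * br vc r * br a c) * hu2
    have e1' : (1 + l * y) * (br a r * (br va c - br vc c)) =
        l * x * (br vc c * br a r - br c r * br vc a) := by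
      rw [e1]; linear_combination (-(l * x)) * pl
    rw [e1']
    have e2 : (1 + l * y) * (l * x * (br vc c * br a r - br va a * br c r)) =
        l * x * ((1 + l * y) * br vc c * br a r - br c r * ((1 + l * y) * br va a)) := by ring
    rw [e2, n1, hcr, har]
    linear_combination (-(l * x * l * y * br vc c * br r a)) * hu1
  refine ⟨⟨?_, ?_⟩, ⟨?_, ?_⟩⟩
  · rw [hrr]
    linear_combination br a r * hd1 + (g * a.1) * ka
  · rw [hrr]
    linear_combination br a r * hd2 + (g * a.2) * ka
  · rw [hrr]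
    linear_combination br c r * hd3 - (g * c.1) * kc
  · rw [hrr]
    linear_combination br c r * hd4 - (g * c.2) * kc

end Alg


section Forms

open ComplexConjugate

/-- Hermitian forms on `ℂ²`. -/
structure Herm where
  A : ℝ
  D : ℝ
  B : ℂ

/-- Evaluation of a Hermitian form. -/
noncomputable def Herm.ev (H : Herm) (u v : ℂ × ℂ) : ℂ :=
  H.A * conj u.1 * v.1 + H.B * conj u.1 * v.2 + conj H.B * conj u.2 * v.1 + H.D * conj u.2 * v.2

/-- Nondegenerate forms. -/
def Herm.Nondeg (H : Herm) : Prop := (H.A : ℂ) * H.D ≠ H.B * conj H.B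

theorem Herm.conj_ev (H : Herm) (u v : ℂ × ℂ) : conj (H.ev u v) = H.ev v u := by
  simp only [Herm.ev, map_add, map_mul, Complex.conj_conj, Complex.conj_ofReal]
  ring

theorem Herm.ev_bracket (H : Herm) (a b w : ℂ × ℂ) :
    conj (br a b) * br a b * H.ev w w = conj (br w b) * br w b * H.ev a a +
      conj (br w b) * br a w * H.ev a b + conj (br a w) * br w b * H.ev b a +
      conj (br a w) * br a w * H.ev b b := by
  simp only [Herm.ev, br, map_sub, map_mul]
  ring

theorem Herm.ev_bracket2 (H : Herm) (a b c u : ℂ × ℂ) :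
    br a b * H.ev u c = br c b * H.ev u a + br a c * H.ev u b := by
  simp only [Herm.ev, br]
  ring

theorem Herm.ev_det (H : Herm) (a b : ℂ × ℂ) :
    H.ev a a * H.ev b b - H.ev a b * H.ev b a =
      ((H.A : ℂ) * H.D - H.B * conj H.B) * (conj (br a b) * br a b) := by
  simp only [Herm.ev, br, map_sub, map_mul]
  ring

theorem Herm.ev_ne (H : Herm) (hH : H.Nondeg) (a b : ℂ × ℂ) (haa : H.ev a a = 0)
    (hab : br a b ≠ 0) : H.ev a b ≠ 0 := by
  intro h
  have h1 := H.ev_det a b
  rw [haa, h] at h1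
  have h2 : ((H.A : ℂ) * H.D - H.B * conj H.B) * (conj (br a b) * br a b) = 0 := by
    rw [← h1]; ring
  rcases mul_eq_zero.1 h2 with h3 | h3
  · exact hH (sub_eq_zero.1 h3)
  · rcases mul_eq_zero.1 h3 with h4 | h4
    · exact hab ((map_eq_zero _).1 h4)
    · exact hab h4

/-- three null vectors: a purely imaginary quantity -/
theorem Herm.phase (H : Herm) (u v s : ℂ × ℂ) (hu : H.ev u u = 0) (hv : H.ev v v = 0)
    (hs : H.ev s s = 0) :
    conj (br s v) * br u s * H.ev u v + br s v * conj (br u s) * conj (H.ev u v) = 0 := by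
  have h1 := H.ev_bracket u v s
  rw [hu, hv, hs] at h1
  rw [H.conj_ev]
  linear_combination -h1

/-- label of an edge `u v` between circles `H` and `H'` (through `u` and `v`) -/
noncomputable def lab (H H' : Herm) (u v : ℂ × ℂ) : ℂ :=
  (H.ev u v * conj (H'.ev u v)) / (conj (H.ev u v) * H'.ev u v) - 1

theorem br_swap {R : Type*} [CommRing R] (u v : R × R) : br u v = - br v u := by
  simp only [br]; ring

theorem lemA (K L M : Herm) (a b c w : ℂ × ℂ) (hab : br a b ≠ 0) (hbc : br b c ≠ 0)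
    (hwb : br w b ≠ 0) (Kaa : K.ev a a = 0) (Kbb : K.ev b b = 0) (Kww : K.ev w w = 0)
    (Lbb : L.ev b b = 0) (Lcc : L.ev c c = 0) (Lww : L.ev w w = 0)
    (Maa : M.ev a a = 0) (Mbb : M.ev b b = 0) (Mcc : M.ev c c = 0)
    (hk : K.ev a b ≠ 0) (hm : M.ev a b ≠ 0) (hl : L.ev b c ≠ 0) :
    lab K M a b * br b c * br w a = lab M L b c * br w c * br b a := by
  have E1 := K.phase a b w Kaa Kbb Kww
  have E2 := M.phase a b c Maa Mbb Mcc
  have E3 := L.phase b c w Lbb Lcc Lww
  have E4 := M.ev_bracket2 a b c b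
  rw [Mbb, mul_zero, add_zero, ← M.conj_ev a b] at E4
  have P : br a w * br c b + br w c * br a b = br a c * br w b := by
    simp only [br]; ring
  rw [br_swap b w] at E3
  rw [br_swap b c, br_swap w a, br_swap b a]
  have hcb : br c b ≠ 0 := by rw [br_swap]; exact neg_ne_zero.2 hbc
  generalize br w b = p at *
  generalize br a w = q at *
  generalize br c b = r at *
  generalize br a c = s at *
  generalize br w c = t at *
  generalize br a b = d at *
  unfold lab
  generalize K.ev a b = k at *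
  generalize M.ev a b = m at *
  generalize L.ev b c = l at *
  have hn : M.ev b c = r * conj m / d := by
    field_simp
    linear_combination E4
  rw [hn]
  have Pc : conj q * conj r + conj t * conj d = conj s * conj p := by
    rw [← map_mul, ← map_mul, ← map_mul, ← map_add, P]
  have E4c : conj (r * conj m / d) = conj r * m / conj d := by
    simp [map_div₀, map_mul]
  rw [E4c]
  rw [map_neg] at E3
  have kb : conj k ≠ 0 := (_root_.map_ne_zero _).2 hk
  have mb : conj m ≠ 0 := (_root_.map_ne_zero _).2 hm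
  have lb : conj l ≠ 0 := (_root_.map_ne_zero _).2 hl
  have pb : conj p ≠ 0 := (_root_.map_ne_zero _).2 hwb
  have rb : conj r ≠ 0 := (_root_.map_ne_zero _).2 hcb
  have db : conj d ≠ 0 := (_root_.map_ne_zero _).2 hab
  generalize conj k = k' at *
  generalize conj m = m' at *
  generalize conj l = l' at *
  generalize conj p = p' at *
  generalize conj q = q' at *
  generalize conj r = r' at *
  generalize conj s = s' at *
  generalize conj t = t' at *
  generalize conj d = d' at *
  have X1 : k * m' / (k' * m) * q = -(p * q' * m') / (p' * m) := by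
    field_simp
    linear_combination E1
  have X2 : r * m' / d * l' / (r' * m / d' * l) * (t * d) = -(r * m' * d' * t' * p) / (r' * m * p') := by
    field_simp
    linear_combination (-1 : ℂ) * E3
  have X3 : -(p * q' * m') / (p' * m) * r + -(r * m' * d' * t' * p) / (r' * m * p') = s * p := by
    field_simp
    linear_combination (-(r * m')) * Pc + (-p') * E2
  linear_combination r * X1 + X2 + X3 - P

/-- zero sets agree if the mixed values are real proportional -/
theorem same_zero (H G : Herm) (u v : ℂ × ℂ) (huv : br u v ≠ 0) (Huu : H.ev u u = 0)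
    (Hvv : H.ev v v = 0) (Guu : G.ev u u = 0) (Gvv : G.ev v v = 0) (hH : H.ev u v ≠ 0)
    (hG : G.ev u v ≠ 0) (h : H.ev u v * conj (G.ev u v) = conj (H.ev u v) * G.ev u v)
    (z : ℂ × ℂ) : H.ev z z = 0 ↔ G.ev z z = 0 := by
  have e1 := H.ev_bracket u v z
  have e2 := G.ev_bracket u v z
  rw [Huu, Hvv, ← H.conj_ev u v] at e1
  rw [Guu, Gvv, ← G.conj_ev u v] at e2
  have hd : conj (br u v) * br u v ≠ 0 := mul_ne_zero ((_root_.map_ne_zero _).2 huv) huv
  constructor
  · intro hz
    rw [hz] at e1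
    have : conj (br u v) * br u v * G.ev z z * H.ev u v = 0 := by
      rw [e2]
      linear_combination (-G.ev u v) * e1 + (conj (br u z) * br z v) * h
    rcases mul_eq_zero.1 this with h3 | h3
    · exact (mul_eq_zero.1 h3).resolve_left hd
    · exact absurd h3 hH
  · intro hz
    rw [hz] at e2
    have : conj (br u v) * br u v * H.ev z z * G.ev u v = 0 := by
      rw [e1]
      linear_combination (-H.ev u v) * e2 - (conj (br u z) * br z v) * h
    rcases mul_eq_zero.1 this with h3 | h3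
    · exact (mul_eq_zero.1 h3).resolve_left hd
    · exact absurd h3 hG

/-- three distinct common null points determine the mixed value up to a real factor -/
theorem prop_of_three (H G : Herm) (u v s : ℂ × ℂ) (hus : br u s ≠ 0) (hsv : br s v ≠ 0)
    (Huu : H.ev u u = 0) (Hvv : H.ev v v = 0) (Hss : H.ev s s = 0)
    (Guu : G.ev u u = 0) (Gvv : G.ev v v = 0) (Gss : G.ev s s = 0) :
    H.ev u v * conj (G.ev u v) = conj (H.ev u v) * G.ev u v := by
  have e1 := H.phase u v s Huu Hvv Hss
  have e2 := G.phase u v s Guu Gvv Gss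
  have h1 : conj (br s v) * br u s ≠ 0 := mul_ne_zero ((_root_.map_ne_zero _).2 hsv) hus
  have h2 : br s v * conj (br u s) ≠ 0 := mul_ne_zero hsv ((_root_.map_ne_zero _).2 hus)
  apply mul_left_cancel₀ (mul_ne_zero h1 h2)
  linear_combination (br s v * conj (br u s) * conj (G.ev u v)) * e1 -
    (br s v * conj (br u s) * conj (H.ev u v)) * e2

theorem lab_eq_zero_iff (H H' : Herm) (u v : ℂ × ℂ) (h : H.ev u v ≠ 0) (h' : H'.ev u v ≠ 0) :
    lab H H' u v = 0 ↔ H.ev u v * conj (H'.ev u v) = conj (H.ev u v) * H'.ev u v := by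
  have h1 : conj (H.ev u v) * H'.ev u v ≠ 0 := mul_ne_zero ((_root_.map_ne_zero _).2 h) h'
  unfold lab
  rw [sub_eq_zero, div_eq_one_iff_eq h1]

/-- formula for a label from a further point on each circle -/
theorem lab_formula (H H' : Herm) (u v s s' : ℂ × ℂ) (hus : br u s ≠ 0) (hsv : br s v ≠ 0)
    (hus' : br u s' ≠ 0) (hsv' : br s' v ≠ 0) (h : H.ev u v ≠ 0) (h' : H'.ev u v ≠ 0)
    (Huu : H.ev u u = 0) (Hvv : H.ev v v = 0) (Hss : H.ev s s = 0)
    (Huu' : H'.ev u u = 0) (Hvv' : H'.ev v v = 0) (Hss' : H'.ev s' s' = 0) :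
    lab H H' u v = (br s v * conj (br u s) * (conj (br s' v) * br u s')) /
      (conj (br s v) * br u s * (br s' v * conj (br u s'))) - 1 := by
  have e1 := H.phase u v s Huu Hvv Hss
  have e2 := H'.phase u v s' Huu' Hvv' Hss'
  unfold lab
  have a1 := (_root_.map_ne_zero (starRingEnd ℂ)).2 hus
  have a2 := (_root_.map_ne_zero (starRingEnd ℂ)).2 hsv
  have a3 := (_root_.map_ne_zero (starRingEnd ℂ)).2 hus'
  have a4 := (_root_.map_ne_zero (starRingEnd ℂ)).2 hsv'
  have a5 := (_root_.map_ne_zero (starRingEnd ℂ)).2 h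
  have a6 := (_root_.map_ne_zero (starRingEnd ℂ)).2 h'
  congr 1
  rw [div_eq_div_iff (mul_ne_zero a5 h') (mul_ne_zero (mul_ne_zero a2 hus) (mul_ne_zero hsv' a3))]
  linear_combination (conj (H'.ev u v) * (br s' v * conj (br u s'))) * e1 -
    (br s v * conj (br u s) * conj (H.ev u v)) * e2

theorem swap1 (K L M M' : Herm) (a b c w : ℂ × ℂ) (hab : br a b ≠ 0) (hbc : br b c ≠ 0)
    (hac : br a c ≠ 0) (haw : br a w ≠ 0) (hwc : br w c ≠ 0) (hbw : br b w ≠ 0)
    (Kaa : K.ev a a = 0) (Kbb : K.ev b b = 0) (Kww : K.ev w w = 0)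
    (Lbb : L.ev b b = 0) (Lcc : L.ev c c = 0) (Lww : L.ev w w = 0)
    (Maa : M.ev a a = 0) (Mbb : M.ev b b = 0) (Mcc : M.ev c c = 0)
    (Maa' : M'.ev a a = 0) (Mww' : M'.ev w w = 0) (Mcc' : M'.ev c c = 0)
    (h1 : K.ev a w ≠ 0) (h2 : M'.ev a w ≠ 0) (h3 : M.ev b c ≠ 0) (h4 : L.ev b c ≠ 0) :
    lab K M' a w = lab M L b c := by
  have hcw : br c w ≠ 0 := by rw [br_swap]; exact neg_ne_zero.2 hwc
  have hba : br b a ≠ 0 := by rw [br_swap]; exact neg_ne_zero.2 hab
  rw [lab_formula K M' a w b c hab hbw hac hcw h1 h2 Kaa Kww Kbb Maa' Mww' Mcc',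
    lab_formula M L b c a w hba hac hbw hwc h3 h4 Mbb Mcc Maa Lbb Lcc Lww]
  congr 1
  rw [br_swap b a, br_swap w c]
  have b1 := (_root_.map_ne_zero (starRingEnd ℂ)).2 hab
  have b2 := (_root_.map_ne_zero (starRingEnd ℂ)).2 hac
  have b3 := (_root_.map_ne_zero (starRingEnd ℂ)).2 hbw
  have b4 := (_root_.map_ne_zero (starRingEnd ℂ)).2 hcw
  simp only [map_neg]
  field_simp

theorem swap2 (K L M M' : Herm) (a b c w : ℂ × ℂ) (hab : br a b ≠ 0) (hbc : br b c ≠ 0)
    (hac : br a c ≠ 0) (haw : br a w ≠ 0) (hwc : br w c ≠ 0) (hbw : br b w ≠ 0)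
    (Kaa : K.ev a a = 0) (Kbb : K.ev b b = 0) (Kww : K.ev w w = 0)
    (Lbb : L.ev b b = 0) (Lcc : L.ev c c = 0) (Lww : L.ev w w = 0)
    (Maa : M.ev a a = 0) (Mbb : M.ev b b = 0) (Mcc : M.ev c c = 0)
    (Maa' : M'.ev a a = 0) (Mww' : M'.ev w w = 0) (Mcc' : M'.ev c c = 0)
    (h1 : K.ev a b ≠ 0) (h2 : M'.ev w c ≠ 0) (h3 : M.ev a b ≠ 0) (h4 : L.ev w c ≠ 0) :
    lab M' L w c = lab K M a b := by
  have hcb : br c b ≠ 0 := by rw [br_swap]; exact neg_ne_zero.2 hbc
  have hwa : br w a ≠ 0 := by rw [br_swap]; exact neg_ne_zero.2 haw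
  have hwb : br w b ≠ 0 := by rw [br_swap]; exact neg_ne_zero.2 hbw
  rw [lab_formula M' L w c a b hwa hac hwb hbc h2 h4 Mww' Mcc' Maa' Lww Lcc Lbb,
    lab_formula K M a b w c haw hwb hac hcb h1 h3 Kaa Kbb Kww Maa Mbb Mcc]
  congr 1
  rw [br_swap w a, br_swap c b]
  have b1 := (_root_.map_ne_zero (starRingEnd ℂ)).2 haw
  have b2 := (_root_.map_ne_zero (starRingEnd ℂ)).2 hac
  have b3 := (_root_.map_ne_zero (starRingEnd ℂ)).2 hwb
  have b4 := (_root_.map_ne_zero (starRingEnd ℂ)).2 hbc
  simp only [map_neg]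
  field_simp

/-- tangent circles at `b` -/
theorem tangent_prop (K L : Herm) (a b : ℂ × ℂ) (hab : br a b ≠ 0)
    (Kaa : K.ev a a = 0) (Kbb : K.ev b b = 0) (Lbb : L.ev b b = 0)
    (htan : ∀ u, K.ev u u = 0 → L.ev u u = 0 → br u b = 0) :
    K.ev a b * conj (L.ev a b) = conj (K.ev a b) * L.ev a b := by
  by_contra hne
  set k := K.ev a b with hk
  set l := L.ev a b with hl
  have hre : conj (L.ev a a) = L.ev a a := L.conj_ev a a
  obtain ⟨r, hr⟩ := Complex.conj_eq_iff_real.1 hre
  -- choose a real s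
  have hne2 : conj k * l - k * conj l ≠ 0 := fun h => hne (by linear_combination -h)
  set t : ℂ := -(r : ℂ) / (conj k * l - k * conj l) with ht
  -- t is purely imaginary
  have htc : conj t = - t := by
    rw [ht]
    simp only [map_div₀, map_neg, map_sub, map_mul, Complex.conj_conj, Complex.conj_ofReal]
    rw [show k * conj l - conj k * l = -(conj k * l - k * conj l) by ring]
    rw [div_neg]
  have hbt := htan (a + (t * conj k) • b) ?_ ?_
  · have : br (a + (t * conj k) • b) b = br a b := by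
      simp only [br, Prod.fst_add, Prod.snd_add, Prod.smul_fst, Prod.smul_snd, smul_eq_mul]
      ring
    rw [this] at hbt
    exact hab hbt
  · have e : K.ev (a + (t * conj k) • b) (a + (t * conj k) • b) =
        K.ev a a + (t * conj k) * K.ev a b + conj (t * conj k) * K.ev b a +
          conj (t * conj k) * (t * conj k) * K.ev b b := by
      simp only [Herm.ev, Prod.fst_add, Prod.snd_add, Prod.smul_fst, Prod.smul_snd, smul_eq_mul,
        map_add, map_mul]
      ring
    rw [e, Kaa, Kbb, ← K.conj_ev a b, ← hk, map_mul, htc, Complex.conj_conj]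
    ring
  · have e : L.ev (a + (t * conj k) • b) (a + (t * conj k) • b) =
        L.ev a a + (t * conj k) * L.ev a b + conj (t * conj k) * L.ev b a +
          conj (t * conj k) * (t * conj k) * L.ev b b := by
      simp only [Herm.ev, Prod.fst_add, Prod.snd_add, Prod.smul_fst, Prod.smul_snd, smul_eq_mul,
        map_add, map_mul]
      ring
    rw [e, Lbb, ← L.conj_ev a b, ← hl, map_mul, htc, Complex.conj_conj, hr]
    have : t * (conj k * l - k * conj l) = - r := by
      rw [ht]; field_simp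
    linear_combination this

theorem lemT (K L M : Herm) (a b c : ℂ × ℂ) (hab : br a b ≠ 0) (hbc : br b c ≠ 0)
    (Kaa : K.ev a a = 0) (Kbb : K.ev b b = 0) (Lbb : L.ev b b = 0)
    (Mbb : M.ev b b = 0) (hk : K.ev a b ≠ 0) (hm : M.ev a b ≠ 0) (hl : L.ev a b ≠ 0)
    (htan : ∀ u, K.ev u u = 0 → L.ev u u = 0 → br u b = 0) :
    lab K M a b = lab M L b c := by
  have h1 := tangent_prop K L a b hab Kaa Kbb Lbb htan
  have E4 := M.ev_bracket2 a b c b
  rw [Mbb, mul_zero, add_zero, ← M.conj_ev a b] at E4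
  have E5 := L.ev_bracket2 a b c b
  rw [Lbb, mul_zero, add_zero, ← L.conj_ev a b] at E5
  have hcb : br c b ≠ 0 := by rw [br_swap]; exact neg_ne_zero.2 hbc
  have e4 : M.ev b c = br c b * conj (M.ev a b) / br a b := by
    field_simp
    linear_combination E4
  have e5 : L.ev b c = br c b * conj (L.ev a b) / br a b := by
    field_simp
    linear_combination E5
  unfold lab
  rw [e4, e5]
  simp only [map_div₀, map_mul, Complex.conj_conj]
  have b1 := (_root_.map_ne_zero (starRingEnd ℂ)).2 hk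
  have b2 := (_root_.map_ne_zero (starRingEnd ℂ)).2 hm
  have b3 := (_root_.map_ne_zero (starRingEnd ℂ)).2 hl
  have b4 := (_root_.map_ne_zero (starRingEnd ℂ)).2 hab
  have b5 := (_root_.map_ne_zero (starRingEnd ℂ)).2 hcb
  congr 1
  field_simp
  linear_combination h1

/-- if both labels vanish the two outer circles agree -/
theorem lemNZ (K L M : Herm) (a b c : ℂ × ℂ) (hab : br a b ≠ 0) (hbc : br b c ≠ 0)
    (Kaa : K.ev a a = 0) (Kbb : K.ev b b = 0) (Lbb : L.ev b b = 0) (Lcc : L.ev c c = 0)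
    (Maa : M.ev a a = 0) (Mbb : M.ev b b = 0) (Mcc : M.ev c c = 0)
    (hk : K.ev a b ≠ 0) (hm : M.ev a b ≠ 0) (hm' : M.ev b c ≠ 0) (hl : L.ev b c ≠ 0)
    (h1 : lab K M a b = 0) (h2 : lab M L b c = 0) (z : ℂ × ℂ) :
    K.ev z z = 0 ↔ L.ev z z = 0 := by
  rw [lab_eq_zero_iff _ _ _ _ hk hm] at h1
  rw [lab_eq_zero_iff _ _ _ _ hm' hl] at h2
  rw [same_zero K M a b hab Kaa Kbb Maa Mbb hk hm h1 z,
    same_zero M L b c hbc Mbb Mcc Lbb Lcc hm' hl h2 z]

/-- the case `a = c` -/
theorem lemEq (K L M : Herm) (a b : ℂ × ℂ) (hab : br a b ≠ 0)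
    (Kaa : K.ev a a = 0) (Kbb : K.ev b b = 0) (Lbb : L.ev b b = 0) (Laa : L.ev a a = 0)
    (hk : K.ev a b ≠ 0) (hm : M.ev a b ≠ 0) (hl : L.ev a b ≠ 0)
    (h : lab K M a b = lab M L b a) (z : ℂ × ℂ) :
    K.ev z z = 0 ↔ L.ev z z = 0 := by
  apply same_zero K L a b hab Kaa Kbb Laa Lbb hk hl
  unfold lab at h
  rw [← M.conj_ev a b, ← L.conj_ev a b, Complex.conj_conj, Complex.conj_conj] at h
  have b1 := (_root_.map_ne_zero (starRingEnd ℂ)).2 hk
  have b2 := (_root_.map_ne_zero (starRingEnd ℂ)).2 hm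
  have b3 := (_root_.map_ne_zero (starRingEnd ℂ)).2 hl
  have h' := sub_left_injective h
  rw [div_eq_div_iff (mul_ne_zero b1 hm) (mul_ne_zero hm b3)] at h'
  apply mul_left_cancel₀ (mul_ne_zero hm b2)
  linear_combination h'


section Points

/-- Homogeneous coordinates on the Riemann sphere. -/
noncomputable def lift : OnePoint ℂ → ℂ × ℂ
  | OnePoint.infty => (1, 0)
  | OnePoint.some z => (z, 1)

@[simp] theorem lift_infty : lift OnePoint.infty = (1, 0) := rfl

@[simp] theorem lift_coe (z : ℂ) : lift (z : OnePoint ℂ) = (z, 1) := rfl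

theorem br_lift_eq_zero (p q : OnePoint ℂ) : br (lift p) (lift q) = 0 ↔ p = q := by
  induction p using OnePoint.rec with
  | infty =>
    induction q using OnePoint.rec with
    | infty => simp [br]
    | coe w => simp [br]
  | coe z =>
    induction q using OnePoint.rec with
    | infty => simp [br]
    | coe w => simp [br, sub_eq_zero]

theorem br_lift_ne (p q : OnePoint ℂ) (h : p ≠ q) : br (lift p) (lift q) ≠ 0 :=
  fun h' => h ((br_lift_eq_zero p q).1 h')

theorem lift_ne_zero (p : OnePoint ℂ) : lift p ≠ 0 := by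
  induction p using OnePoint.rec with
  | infty => simp
  | coe z => simp

theorem exists_point (u : ℂ × ℂ) (hu : u ≠ 0) :
    ∃ (p : OnePoint ℂ) (s : ℂ), s ≠ 0 ∧ u = s • lift p := by
  by_cases h : u.2 = 0
  · refine ⟨OnePoint.infty, u.1, ?_, ?_⟩
    · intro h1
      exact hu (Prod.ext h1 h)
    · apply Prod.ext <;> simp [h]
  · refine ⟨((u.1 / u.2 : ℂ) : OnePoint ℂ), u.2, h, ?_⟩
    apply Prod.ext
    · simp; field_simp
    · simp

theorem Herm.ev_smul_self (H : Herm) (s : ℂ) (u : ℂ × ℂ) :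
    H.ev (s • u) (s • u) = conj s * s * H.ev u u := by
  simp only [Herm.ev, Prod.smul_fst, Prod.smul_snd, smul_eq_mul, map_mul]
  ring

theorem IsCircle.form {S : Set (OnePoint ℂ)} (h : IsCircle S) :
    ∃ H : Herm, H.Nondeg ∧ ∀ p, p ∈ S ↔ H.ev (lift p) (lift p) = 0 := by
  rcases h with ⟨c, r, hr, rfl⟩ | ⟨a, d, hd, rfl⟩
  · refine ⟨⟨1, Complex.normSq c - r ^ 2, -c⟩, ?_, ?_⟩
    · intro h
      simp only [Complex.ofReal_one, one_mul, map_neg, neg_mul_neg] at h
      rw [Complex.mul_conj] at h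
      have h1 : Complex.normSq c - r ^ 2 = Complex.normSq c := by exact_mod_cast h
      have : 0 < r ^ 2 := by positivity
      linarith
    · intro p
      induction p using OnePoint.rec with
      | infty => simp [Herm.ev]
      | coe z =>
        have e : (Herm.ev ⟨1, Complex.normSq c - r ^ 2, -c⟩ (lift (z : OnePoint ℂ))
            (lift (z : OnePoint ℂ))) = ((Complex.normSq (z - c) - r ^ 2 : ℝ) : ℂ) := by
          simp only [Herm.ev, lift_coe, map_one, map_neg]
          push_cast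
          rw [← Complex.mul_conj, ← Complex.mul_conj, map_sub]
          ring
        rw [e]
        simp only [Set.mem_ofPred_eq]
        constructor
        · rintro ⟨w, hw, hn⟩
          have : z = w := by exact_mod_cast hw
          subst this
          rw [Complex.normSq_eq_norm_sq, hn]
          simp
        · intro h0
          have h1 : Complex.normSq (z - c) - r ^ 2 = 0 := by exact_mod_cast h0
          refine ⟨z, rfl, ?_⟩
          rw [Complex.normSq_eq_norm_sq] at h1
          have h2 : ‖z - c‖ ^ 2 = r ^ 2 := by linarith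
          exact (pow_left_inj₀ (norm_nonneg _) hr.le two_ne_zero).1 h2
  · refine ⟨⟨0, -2 * (conj d * a).im, Complex.I * d⟩, ?_, ?_⟩
    · intro h
      simp only [Complex.ofReal_zero, zero_mul] at h
      have h1 : Complex.I * d ≠ 0 := mul_ne_zero Complex.I_ne_zero hd
      have h2 : conj (Complex.I * d) ≠ 0 := (_root_.map_ne_zero _).2 h1
      exact mul_ne_zero h1 h2 h.symm
    · intro p
      induction p using OnePoint.rec with
      | infty => simp [Herm.ev]
      | coe z =>
        have e : (Herm.ev ⟨0, -2 * (conj d * a).im, Complex.I * d⟩ (lift (z : OnePoint ℂ))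
            (lift (z : OnePoint ℂ))) = ((2 * (conj d * (z - a)).im : ℝ) : ℂ) := by
          apply Complex.ext
          · simp [Herm.ev]
            ring
          · simp [Herm.ev]
        rw [e]
        simp only [Set.mem_ofPred_eq]
        constructor
        · rintro (h | ⟨t, ht⟩)
          · exact absurd h (OnePoint.coe_ne_infty z)
          · have h1 : z = a + t * d := by exact_mod_cast ht
            have : conj d * (z - a) = ((t * Complex.normSq d : ℝ) : ℂ) := by
              rw [h1]; push_cast; rw [← Complex.mul_conj]; ring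
            rw [this, Complex.ofReal_im]
            simp
        · intro h0
          have h1 : (conj d * (z - a)).im = 0 := by
            have : 2 * (conj d * (z - a)).im = 0 := by exact_mod_cast h0
            linarith
          right
          refine ⟨(conj d * (z - a)).re / Complex.normSq d, ?_⟩
          have h2 : conj d * (z - a) = (((conj d * (z - a)).re : ℝ) : ℂ) := by
            apply Complex.ext
            · simp
            · simp only [Complex.ofReal_im]; exact h1
          have h3 : ((Complex.normSq d : ℝ) : ℂ) ≠ 0 := by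
            rw [Ne, Complex.ofReal_eq_zero, Complex.normSq_eq_zero]
            exact hd
          have h4 : z = a + (((conj d * (z - a)).re / Complex.normSq d : ℝ) : ℂ) * d := by
            rw [Complex.ofReal_div, ← h2]
            field_simp
            rw [← Complex.mul_conj]
            ring
          exact congrArg _ h4

end Points

theorem Herm.ev_bracket3 (H : Herm) (a b c u : ℂ × ℂ) :
    conj (br a b) * H.ev c u = conj (br c b) * H.ev a u + conj (br a c) * H.ev b u := by
  simp only [Herm.ev, br, map_sub, map_mul]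
  ring

theorem Herm.ev_add_smul (H : Herm) (u v w : ℂ × ℂ) (s : ℂ) :
    H.ev u (v + s • w) = H.ev u v + s * H.ev u w := by
  simp only [Herm.ev, Prod.fst_add, Prod.snd_add, Prod.smul_fst, Prod.smul_snd, smul_eq_mul]
  ring

theorem transfer (H H' : Herm) (p q u v : ℂ × ℂ) (hpq : br p q ≠ 0)
    (Hpp : H.ev p p = 0) (Hqq : H.ev q q = 0) (Hpp' : H'.ev p p = 0) (Hqq' : H'.ev q q = 0)
    (h : H.ev p q ≠ 0) (h' : H'.ev p q ≠ 0) :
    H'.ev p q / H.ev p q * H.ev u (v + (lab H H' p q * br v q / br p q) • p) = H'.ev u v := by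
  have a1 := H.ev_bracket3 p q u q
  have a2 := H'.ev_bracket3 p q u q
  have a3 := H.ev_bracket3 p q u p
  have a4 := H'.ev_bracket3 p q u p
  have a5 := H.ev_bracket2 p q v u
  have a6 := H'.ev_bracket2 p q v u
  rw [Hqq, mul_zero, add_zero] at a1
  rw [Hqq', mul_zero, add_zero] at a2
  rw [Hpp, mul_zero, zero_add, ← H.conj_ev p q] at a3
  rw [Hpp', mul_zero, zero_add, ← H'.conj_ev p q] at a4
  have b1 := (_root_.map_ne_zero (starRingEnd ℂ)).2 h
  have b2 := (_root_.map_ne_zero (starRingEnd ℂ)).2 h'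
  have b3 := (_root_.map_ne_zero (starRingEnd ℂ)).2 hpq
  -- H'(u,q) = t H(u,q)
  have c1 : H.ev p q * H'.ev u q = H'.ev p q * H.ev u q := by
    apply mul_left_cancel₀ b3
    linear_combination H.ev p q * a2 - H'.ev p q * a1
  have c2 : conj (H.ev p q) * H'.ev u p = conj (H'.ev p q) * H.ev u p := by
    apply mul_left_cancel₀ b3
    linear_combination conj (H.ev p q) * a4 - conj (H'.ev p q) * a3
  rw [Herm.ev_add_smul]
  apply mul_left_cancel₀ hpq
  have c1' : H'.ev u q = H'.ev p q / H.ev p q * H.ev u q := by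
    field_simp
    linear_combination c1
  have c2' : H'.ev u p = conj (H'.ev p q) / conj (H.ev p q) * H.ev u p := by
    field_simp
    linear_combination c2
  rw [a6, c1', c2']
  have e : br p q * (H'.ev p q / H.ev p q * (H.ev u v + lab H H' p q * br v q / br p q * H.ev u p))
      = H'.ev p q / H.ev p q * (br p q * H.ev u v + lab H H' p q * br v q * H.ev u p) := by
    field_simp
  rw [e, a5]
  unfold lab
  field_simp
  ring

theorem transfer2 (K M L : Herm) (a r c u v : ℂ × ℂ) (har : br a r ≠ 0) (hrc : br r c ≠ 0)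
    (Kaa : K.ev a a = 0) (Krr : K.ev r r = 0) (Maa : M.ev a a = 0) (Mrr : M.ev r r = 0)
    (Mcc : M.ev c c = 0) (Lrr : L.ev r r = 0) (Lcc : L.ev c c = 0)
    (h1 : K.ev a r ≠ 0) (h2 : M.ev a r ≠ 0) (h3 : M.ev r c ≠ 0) (h4 : L.ev r c ≠ 0) :
    (L.ev r c / M.ev r c) * (M.ev a r / K.ev a r) *
      K.ev u (v + (lab M L r c * br v c / br r c) • r + (lab K M a r * br v r / br a r) • a) =
      L.ev u v := by
  have e1 := transfer M L r c u v hrc Mrr Mcc Lrr Lcc h3 h4
  have e2 := transfer K M a r u (v + (lab M L r c * br v c / br r c) • r) har Kaa Krr Maa Mrr h1 h2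
  have e3 : br (v + (lab M L r c * br v c / br r c) • r) r = br v r := by
    simp only [br, Prod.fst_add, Prod.snd_add, Prod.smul_fst, Prod.smul_snd, smul_eq_mul]
    ring
  rw [e3] at e2
  rw [mul_assoc, e2, e1]

/-- triangular structure, first column -/
theorem triO (a r c O : ℂ × ℂ) (x y : ℂ) (har : br a r ≠ 0) (hrc : br r c ≠ 0)
    (hR : x * br r c * br O a = y * br O c * br r a) :
    O + (y * br O c / br r c) • r + (x * br O r / br a r) • a = (1 + x) • O := by
  have key : ∀ i : ℂ × ℂ → ℂ, (i = Prod.fst ∨ i = Prod.snd) →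
      y * br O c / br r c * i r + x * br O r / br a r * i a = x * i O := by
    intro i hi
    have pl : br O r * i a + br r a * i O + br a O * i r = 0 := by
      rcases hi with rfl | rfl <;> simp only [br] <;> ring
    have hra : br r a = - br a r := br_swap r a
    have haO : br a O = - br O a := br_swap a O
    rw [hra, haO] at pl
    rw [hra] at hR
    field_simp
    linear_combination (x * br r c) * pl + i r * hR
  apply Prod.ext
  · simp only [Prod.fst_add, Prod.smul_fst, smul_eq_mul]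
    linear_combination key _ (Or.inl rfl)
  · simp only [Prod.snd_add, Prod.smul_snd, smul_eq_mul]
    linear_combination key _ (Or.inr rfl)

/-- triangular structure, second column -/
theorem triE (a r c O E : ℂ × ℂ) (x y : ℂ) (har : br a r ≠ 0) (hrc : br r c ≠ 0)
    (hEO : br E O = 1) (hR : x * br r c * br O a = y * br O c * br r a) :
    E + (y * br E c / br r c) • r + (x * br E r / br a r) • a =
      (1 + y) • E + (-(y * br E c / br r c * br r E + x * br E r / br a r * br a E)) • O := by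
  have hra : br r a = - br a r := br_swap r a
  have haO : br a O = - br O a := br_swap a O
  have hrO : br r O = - br O r := br_swap r O
  -- coefficient along E
  have hy : y * br E c / br r c * br r O + x * br E r / br a r * br a O = y := by
    have pl : br E r * br O c - br E c * br O r = br E O * br r c := by
      simp only [br]; ring
    rw [hEO, one_mul] at pl
    rw [hra] at hR
    rw [hrO, haO]
    field_simp
    linear_combination (-br E r) * hR + (y * br a r) * pl
  have key : ∀ i : ℂ × ℂ → ℂ, (i = Prod.fst ∨ i = Prod.snd) →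
      y * br E c / br r c * i r + x * br E r / br a r * i a = y * i E +
        (-(y * br E c / br r c * br r E + x * br E r / br a r * br a E)) * i O := by
    intro i hi
    have p1 : i r = br r O * i E - br r E * i O := by
      have : br E O * i r = br r O * i E - br r E * i O := by
        rcases hi with rfl | rfl <;> simp only [br] <;> ring
      rw [hEO, one_mul] at this
      exact this
    have p2 : i a = br a O * i E - br a E * i O := by
      have : br E O * i a = br a O * i E - br a E * i O := by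
        rcases hi with rfl | rfl <;> simp only [br] <;> ring
      rw [hEO, one_mul] at this
      exact this
    rw [p1, p2]
    linear_combination i E * hy
  apply Prod.ext
  · simp only [Prod.fst_add, Prod.smul_fst, smul_eq_mul]
    linear_combination key _ (Or.inl rfl)
  · simp only [Prod.snd_add, Prod.smul_snd, smul_eq_mul]
    linear_combination key _ (Or.inr rfl)


end Forms

section Existence

theorem finrank_degreeLT (m : ℕ) : Module.finrank ℂ (degreeLT ℂ m) = m := by
  rw [(degreeLTEquiv ℂ m).finrank_eq]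
  simp

instance (m : ℕ) : Module.Finite ℂ (degreeLT ℂ m) :=
  Module.Finite.equiv (degreeLTEquiv ℂ m).symm

/-- the polynomial `h` with prescribed top coefficient -/
noncomputable def withTop (N : ℕ) (s : ℂ) (p : degreeLT ℂ (N + 1)) : ℂ[X] :=
  C s * X ^ (N + 1) + p.1

theorem withTop_coeff_top (N : ℕ) (s : ℂ) (p : degreeLT ℂ (N + 1)) :
    (withTop N s p).coeff (N + 1) = s := by
  have h := p.2
  rw [mem_degreeLT, degree_lt_iff_coeff_zero] at h
  simp [withTop, h (N + 1) le_rfl]

theorem withTop_coeff_gt (N : ℕ) (s : ℂ) (p : degreeLT ℂ (N + 1)) (j : ℕ) (hj : N + 1 < j) :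
    (withTop N s p).coeff j = 0 := by
  have h := p.2
  rw [mem_degreeLT, degree_lt_iff_coeff_zero] at h
  simp only [withTop, coeff_add, coeff_C_mul_X_pow]
  rw [h j (by omega), if_neg (by omega), add_zero]

/-- the defect polynomial -/
noncomputable def defect (x y g : ℂ) (h f f' : ℂ[X]) : ℂ[X] :=
  (1 + X * C x) * f' + X * C g * h - (1 + X * C y) * f

theorem defect_coeff_succ (x y g : ℂ) (h f f' : ℂ[X]) (j : ℕ) :
    (defect x y g h f f').coeff (j + 1) =
      f'.coeff (j + 1) + x * f'.coeff j + g * h.coeff j - (f.coeff (j + 1) + y * f.coeff j) := by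
  have e : defect x y g h f f' = f' + X * (C x * f') + X * (C g * h) - (f + X * (C y * f)) := by
    simp only [defect]; ring
  rw [e]
  simp only [coeff_sub, coeff_add, coeff_X_mul, coeff_C_mul]

theorem defect_mem (N : ℕ) (x y g s t u : ℂ) (h f f' : degreeLT ℂ (N + 1))
    (htop : x * u + g * s = y * t) :
    defect x y g (withTop N s h) (withTop N t f) (withTop N u f') ∈ degreeLT ℂ (N + 2) := by
  rw [mem_degreeLT, degree_lt_iff_coeff_zero]
  intro j hj
  obtain ⟨i, rfl⟩ : ∃ i, j = i + 1 := ⟨j - 1, by omega⟩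
  rw [defect_coeff_succ]
  rw [withTop_coeff_gt N u f' (i + 1) (by omega), withTop_coeff_gt N t f (i + 1) (by omega)]
  rcases Nat.lt_or_ge (N + 1) i with hi | hi
  · rw [withTop_coeff_gt N u f' i hi, withTop_coeff_gt N s h i hi, withTop_coeff_gt N t f i hi]
    ring
  · have : i = N + 1 := by omega
    subst this
    rw [withTop_coeff_top, withTop_coeff_top, withTop_coeff_top]
    linear_combination htop

/-- The linear system. -/
noncomputable def sys (N : ℕ) (x y γ φ : ZMod (N + 3) → ℂ) (η : ℂ)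
    (htop : ∀ k, x k * φ (k + 1) + γ k * η = y k * φ k) :
    (ℂ × degreeLT ℂ (N + 1) × (ZMod (N + 3) → degreeLT ℂ (N + 1))) →ₗ[ℂ]
      (ZMod (N + 3) → degreeLT ℂ (N + 2)) where
  toFun v k := ⟨defect (x k) (y k) (γ k) (withTop N (v.1 * η) v.2.1)
      (withTop N (v.1 * φ k) (v.2.2 k)) (withTop N (v.1 * φ (k + 1)) (v.2.2 (k + 1))),
    defect_mem _ _ _ _ _ _ _ _ _ _ (by linear_combination v.1 * htop k)⟩
  map_add' v w := by
    funext k
    apply Subtype.ext
    simp only [defect, withTop, Prod.fst_add, Prod.snd_add, Pi.add_apply, Submodule.coe_add,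
      add_mul, C_add]
    ring
  map_smul' c v := by
    funext k
    apply Subtype.ext
    simp only [defect, withTop, Prod.smul_fst, Prod.smul_snd, Pi.smul_apply, Submodule.coe_smul,
      smul_eq_mul, RingHom.id_apply, C_mul, smul_eq_C_mul]
    ring

/-- The two dependencies. -/
noncomputable def dep (N : ℕ) (m : ZMod (N + 3) → ℂ) :
    (ZMod (N + 3) → degreeLT ℂ (N + 2)) →ₗ[ℂ] ℂ × ℂ where
  toFun w := (∑ k, (w k).1.eval 0, ∑ k, m k * (w k).1.eval 1)
  map_add' v w := by
    simp [Finset.sum_add_distrib, mul_add]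
  map_smul' c v := by
    simp only [Pi.smul_apply, Submodule.coe_smul, eval_smul, smul_eq_mul, RingHom.id_apply,
      Prod.smul_mk, Finset.mul_sum]
    congr 1
    refine Finset.sum_congr rfl fun k _ => ?_
    ring

theorem dep_surjective (N : ℕ) (m : ZMod (N + 3) → ℂ) (hm0 : m 0 ≠ 0) :
    LinearMap.range (dep N m) = ⊤ := by
  rw [LinearMap.range_eq_top]
  rintro ⟨u, v⟩
  have hmem : C u + C ((v - m 0 * u) / m 0) * X ∈ degreeLT ℂ (N + 2) := by
    rw [mem_degreeLT, degree_lt_iff_coeff_zero]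
    intro j hj
    rw [coeff_add, coeff_C_mul, coeff_C, coeff_X, if_neg (by omega), if_neg (by omega)]
    simp
  refine ⟨Pi.single 0 ⟨_, hmem⟩, ?_⟩
  have e : ∀ k : ZMod (N + 3), ((Pi.single 0 ⟨_, hmem⟩ : ZMod (N + 3) → degreeLT ℂ (N + 2)) k).1 =
      if k = 0 then C u + C ((v - m 0 * u) / m 0) * X else 0 := by
    intro k
    by_cases hk : k = 0
    · subst hk; simp
    · simp [hk]
  apply Prod.ext
  · show ∑ k, eval 0 ((Pi.single 0 ⟨_, hmem⟩ : ZMod (N + 3) → degreeLT ℂ (N + 2)) k).1 = u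
    simp only [e]
    rw [Finset.sum_eq_single 0]
    · simp
    · intro k _ hk; simp [hk]
    · intro h; exact absurd (Finset.mem_univ _) h
  · show ∑ k, m k * eval 1 ((Pi.single 0 ⟨_, hmem⟩ : ZMod (N + 3) → degreeLT ℂ (N + 2)) k).1 = v
    simp only [e]
    rw [Finset.sum_eq_single 0]
    · simp; field_simp; ring
    · intro k _ hk; simp [hk]
    · intro h; exact absurd (Finset.mem_univ _) h

theorem exists_sections (N : ℕ) (x y γ φ m : ZMod (N + 3) → ℂ) (η : ℂ)
    (htop : ∀ k, x k * φ (k + 1) + γ k * η = y k * φ k)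
    (htop0 : ¬ (η = 0 ∧ ∀ k, φ k = 0))
    (hm : ∀ k, m k * (1 + x k) = m (k + 1) * (1 + y (k + 1)))
    (hmγ : ∑ k, m k * γ k = 0) (hm0 : m 0 ≠ 0) :
    ∃ (t : ℂ) (h : ℂ[X]) (f : ZMod (N + 3) → ℂ[X]), ¬ (h = 0 ∧ ∀ k, f k = 0) ∧
      (∀ j, N + 1 < j → h.coeff j = 0) ∧ (∀ k j, N + 1 < j → (f k).coeff j = 0) ∧
      h.coeff (N + 1) = t * η ∧ (∀ k, (f k).coeff (N + 1) = t * φ k) ∧
      ∀ k, defect (x k) (y k) (γ k) h (f k) (f (k + 1)) = 0 := by
  have hrange : LinearMap.range (sys N x y γ φ η htop) ≤ LinearMap.ker (dep N m) := by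
    rintro _ ⟨v, rfl⟩
    rw [LinearMap.mem_ker]
    apply Prod.ext
    · show ∑ k, eval 0 (defect (x k) (y k) (γ k) (withTop N (v.1 * η) v.2.1)
        (withTop N (v.1 * φ k) (v.2.2 k)) (withTop N (v.1 * φ (k + 1)) (v.2.2 (k + 1)))) = 0
      have : ∀ k : ZMod (N + 3), eval 0 (defect (x k) (y k) (γ k) (withTop N (v.1 * η) v.2.1)
        (withTop N (v.1 * φ k) (v.2.2 k)) (withTop N (v.1 * φ (k + 1)) (v.2.2 (k + 1)))) =
        eval 0 (withTop N (v.1 * φ (k + 1)) (v.2.2 (k + 1))) -
          eval 0 (withTop N (v.1 * φ k) (v.2.2 k)) := by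
        intro k
        simp [defect]
      simp only [this]
      rw [Finset.sum_sub_distrib, sub_eq_zero]
      exact Equiv.sum_comp (Equiv.addRight (1 : ZMod (N + 3)))
        (fun k => eval 0 (withTop N (v.1 * φ k) (v.2.2 k)))
    · show ∑ k, m k * eval 1 (defect (x k) (y k) (γ k) (withTop N (v.1 * η) v.2.1)
        (withTop N (v.1 * φ k) (v.2.2 k)) (withTop N (v.1 * φ (k + 1)) (v.2.2 (k + 1)))) = 0
      have : ∀ k : ZMod (N + 3), m k * eval 1 (defect (x k) (y k) (γ k) (withTop N (v.1 * η) v.2.1)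
        (withTop N (v.1 * φ k) (v.2.2 k)) (withTop N (v.1 * φ (k + 1)) (v.2.2 (k + 1)))) =
        (m (k + 1) * (1 + y (k + 1)) * eval 1 (withTop N (v.1 * φ (k + 1)) (v.2.2 (k + 1))) -
          m k * (1 + y k) * eval 1 (withTop N (v.1 * φ k) (v.2.2 k))) +
        m k * γ k * eval 1 (withTop N (v.1 * η) v.2.1) := by
        intro k
        rw [← hm k]
        simp [defect]
        ring
      simp only [this]
      rw [Finset.sum_add_distrib, Finset.sum_sub_distrib, ← Finset.sum_mul, hmγ, zero_mul,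
        add_zero, sub_eq_zero]
      exact Equiv.sum_comp (Equiv.addRight (1 : ZMod (N + 3)))
        (fun k => m k * (1 + y k) * eval 1 (withTop N (v.1 * φ k) (v.2.2 k)))
  have h1 := LinearMap.finrank_range_add_finrank_ker (sys N x y γ φ η htop)
  have h2 := LinearMap.finrank_range_add_finrank_ker (dep N m)
  have h3 := Submodule.finrank_mono hrange
  rw [dep_surjective N m hm0, finrank_top] at h2
  have d1 : Module.finrank ℂ (ZMod (N + 3) → degreeLT ℂ (N + 2)) = (N + 3) * (N + 2) := by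
    rw [Module.finrank_pi_fintype]
    simp [finrank_degreeLT, ZMod.card]
  have d2 : Module.finrank ℂ (ℂ × degreeLT ℂ (N + 1) × (ZMod (N + 3) → degreeLT ℂ (N + 1))) =
      1 + ((N + 1) + (N + 3) * (N + 1)) := by
    rw [Module.finrank_prod, Module.finrank_prod, Module.finrank_pi_fintype]
    simp [finrank_degreeLT, ZMod.card]
  have d3 : Module.finrank ℂ (ℂ × ℂ) = 2 := by
    rw [Module.finrank_prod]; simp
  rw [d1, d3] at h2
  rw [d2] at h1
  have e1 : (N + 3) * (N + 2) = (N + 3) * (N + 1) + (N + 3) := by ring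
  have h4 : 0 < Module.finrank ℂ (LinearMap.ker (sys N x y γ φ η htop)) := by omega
  have hbot : LinearMap.ker (sys N x y γ φ η htop) ≠ ⊥ := by
    intro h
    rw [h, finrank_bot] at h4
    exact absurd h4 (lt_irrefl 0)
  obtain ⟨v, hv, hv0⟩ := Submodule.exists_mem_ne_zero_of_ne_bot hbot
  rw [LinearMap.mem_ker] at hv
  refine ⟨v.1, withTop N (v.1 * η) v.2.1, fun k => withTop N (v.1 * φ k) (v.2.2 k), ?_,
    fun j hj => withTop_coeff_gt _ _ _ _ hj, fun k j hj => withTop_coeff_gt _ _ _ _ hj,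
    withTop_coeff_top _ _ _, fun k => withTop_coeff_top _ _ _, ?_⟩
  · rintro ⟨z1, z2⟩
    have c1 : v.1 * η = 0 := by
      have := withTop_coeff_top N (v.1 * η) v.2.1
      rw [z1] at this
      simpa using this.symm
    have c2 : ∀ k, v.1 * φ k = 0 := by
      intro k
      have := withTop_coeff_top N (v.1 * φ k) (v.2.2 k)
      have z2' : withTop N (v.1 * φ k) (v.2.2 k) = 0 := z2 k
      rw [z2'] at this
      simpa using this.symm
    have c3 : v.1 = 0 := by
      by_contra hne
      apply htop0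
      refine ⟨(mul_eq_zero.1 c1).resolve_left hne, fun k => (mul_eq_zero.1 (c2 k)).resolve_left hne⟩
    apply hv0
    apply Prod.ext
    · exact c3
    · apply Prod.ext
      · apply Subtype.ext
        have := z1
        rw [withTop, c1, C_0, zero_mul, zero_add] at this
        exact this
      · funext k
        apply Subtype.ext
        have z2' : withTop N (v.1 * φ k) (v.2.2 k) = 0 := z2 k
        rw [withTop, c2 k, C_0, zero_mul, zero_add] at z2'
        exact z2'
  · intro k
    have := congrArg Subtype.val (congrFun hv k)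
    exact this

theorem per_val (n : ℕ) [NeZero n] {α : Type*} (g : ℤ → α) (hg : ∀ k, g (k + n) = g k) (k : ℤ) :
    g (((k : ZMod n).val : ℕ) : ℤ) = g k := by
  have hp : Function.Periodic g (n : ℤ) := hg
  have h1 : (((k : ZMod n).val : ℕ) : ℤ) = k % n := by
    rw [ZMod.val_intCast]
  rw [h1]
  have h2 := hp.int_mul (k / n) (k % n)
  rw [← h2]
  congr 1
  have h3 := Int.emod_add_mul_ediv k n
  simp only [Int.cast_id]
  linear_combination h3

theorem exists_sections_int (N : ℕ) (x y γ φ m S : ℤ → ℂ) (η : ℂ)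
    (px : ∀ k, x (k + ((N + 3 : ℕ) : ℤ)) = x k) (py : ∀ k, y (k + ((N + 3 : ℕ) : ℤ)) = y k)
    (pγ : ∀ k, γ (k + ((N + 3 : ℕ) : ℤ)) = γ k) (pφ : ∀ k, φ (k + ((N + 3 : ℕ) : ℤ)) = φ k)
    (pm : ∀ k, m (k + ((N + 3 : ℕ) : ℤ)) = m k) (pS : ∀ k, S (k + ((N + 3 : ℕ) : ℤ)) = S k)
    (htop : ∀ k, x k * φ (k + 1) + γ k * η = y k * φ k)
    (htop0 : ¬ (η = 0 ∧ ∀ k, φ k = 0))
    (hm : ∀ k, m k * (1 + x k) = m (k + 1) * (1 + y (k + 1)))
    (hmγ : ∀ k, m k * γ k = S (k + 1) - S k) (hm0 : m 0 ≠ 0) :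
    ∃ (t : ℂ) (h : ℂ[X]) (f : ℤ → ℂ[X]), ¬ (h = 0 ∧ ∀ k, f k = 0) ∧
      (∀ j, N + 1 < j → h.coeff j = 0) ∧ (∀ k j, N + 1 < j → (f k).coeff j = 0) ∧
      h.coeff (N + 1) = t * η ∧ (∀ k, (f k).coeff (N + 1) = t * φ k) ∧
      ∀ k, defect (x k) (y k) (γ k) h (f k) (f (k + 1)) = 0 := by
  have succ : ∀ (g : ℤ → ℂ) (_ : ∀ k, g (k + ((N + 3 : ℕ) : ℤ)) = g k) (κ : ZMod (N + 3)),
      g (((κ + 1 : ZMod (N + 3)).val : ℕ) : ℤ) = g ((κ.val : ℤ) + 1) := by
    intro g hg κ
    have h1 := per_val (N + 3) g hg ((κ.val : ℤ) + 1)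
    rw [← h1]
    congr 3
  obtain ⟨t, h, f, h0, h1, h2, h3, h4, h5⟩ := exists_sections N
    (fun κ => x (κ.val : ℤ)) (fun κ => y (κ.val : ℤ)) (fun κ => γ (κ.val : ℤ))
    (fun κ => φ (κ.val : ℤ)) (fun κ => m (κ.val : ℤ)) η
    (fun κ => by
      rw [succ φ pφ κ]; exact htop _)
    (by
      rintro ⟨z1, z2⟩
      apply htop0
      refine ⟨z1, fun k => ?_⟩
      rw [← per_val (N + 3) φ pφ k]
      exact z2 _)
    (fun κ => by
      rw [succ m pm κ, succ y py κ]; exact hm _)
    (by
      have : ∀ κ : ZMod (N + 3), m (κ.val : ℤ) * γ (κ.val : ℤ) =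
          S (((κ + 1 : ZMod (N + 3)).val : ℕ) : ℤ) - S (κ.val : ℤ) := by
        intro κ
        rw [succ S pS κ]; exact hmγ _
      simp only [this]
      rw [Finset.sum_sub_distrib, sub_eq_zero]
      exact Equiv.sum_comp (Equiv.addRight (1 : ZMod (N + 3))) (fun κ => S (κ.val : ℤ)))
    (by simpa using hm0)
  refine ⟨t, h, fun k => f (k : ZMod (N + 3)), ?_, h1, fun k => h2 _, h3, ?_, ?_⟩
  · rintro ⟨z1, z2⟩
    apply h0
    refine ⟨z1, fun κ => ?_⟩
    have := z2 (κ.val : ℤ)
    simpa using this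
  · intro k
    rw [h4]
    rw [per_val (N + 3) φ pφ k]
  · intro k
    have := h5 (k : ZMod (N + 3))
    rw [per_val (N + 3) x px k, per_val (N + 3) y py k, per_val (N + 3) γ pγ k] at this
    push_cast
    exact this

end Existence


/-! ### Circle intersection -/

section Geometry

open ComplexConjugate

/-- A Hermitian form vanishing at three points (a choice). -/
noncomputable def cform (p q r : OnePoint ℂ) : Herm :=
  open Classical in
  if h : ∃ H : Herm, H.Nondeg ∧ H.ev (lift p) (lift p) = 0 ∧ H.ev (lift q) (lift q) = 0 ∧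
    H.ev (lift r) (lift r) = 0 then Classical.choose h else ⟨0, 0, 0⟩

theorem cform_spec {S : Set (OnePoint ℂ)} {p q r : OnePoint ℂ} (h : IsCircleThrough S p q r) :
    (cform p q r).Nondeg ∧ ∀ z, z ∈ S ↔ (cform p q r).ev (lift z) (lift z) = 0 := by
  obtain ⟨hS, hpq, hqr, hpr, mp, mq, mr⟩ := h
  obtain ⟨H, hH, hz⟩ := hS.form
  have hex : ∃ H : Herm, H.Nondeg ∧ H.ev (lift p) (lift p) = 0 ∧ H.ev (lift q) (lift q) = 0 ∧
    H.ev (lift r) (lift r) = 0 := ⟨H, hH, (hz p).1 mp, (hz q).1 mq, (hz r).1 mr⟩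
  have e : cform p q r = Classical.choose hex := by
    unfold cform
    rw [dif_pos hex]
  have hc := Classical.choose_spec hex
  rw [← e] at hc
  obtain ⟨c1, c2, c3, c4⟩ := hc
  refine ⟨c1, fun z => ?_⟩
  rw [hz z]
  have bpq := br_lift_ne p q hpq
  have bpr := br_lift_ne p r hpr
  have brq := br_lift_ne r q hqr.symm
  have n1 := H.ev_ne hH (lift p) (lift q) ((hz p).1 mp) bpq
  have n2 := (cform p q r).ev_ne c1 (lift p) (lift q) c2 bpq
  exact same_zero H (cform p q r) (lift p) (lift q) bpq ((hz p).1 mp) ((hz q).1 mq) c2 c3 n1 n2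
    (prop_of_three H (cform p q r) (lift p) (lift q) (lift r) bpr brq ((hz p).1 mp)
      ((hz q).1 mq) ((hz r).1 mr) c2 c3 c4) (lift z)

/-- the form of the circle centred at the vertex `j` -/
noncomputable def gf (A : ℤ → OnePoint ℂ) (j : ℤ) : Herm := cform (A (j - 1)) (A j) (A (j + 1))

/-- Algebraic content of a circle intersection. -/
structure OtherData (A : ℤ → OnePoint ℂ) (i : ℤ) (m : OnePoint ℂ) : Prop where
  d1 : A (i - 2) ≠ A (i - 1)
  d2 : A (i - 1) ≠ A i
  d3 : A (i - 2) ≠ A i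
  d4 : A i ≠ A (i + 1)
  d5 : A (i + 1) ≠ A (i + 2)
  d6 : A i ≠ A (i + 2)
  Knd : (gf A (i - 1)).Nondeg
  Lnd : (gf A (i + 1)).Nondeg
  K1 : (gf A (i - 1)).ev (lift (A (i - 2))) (lift (A (i - 2))) = 0
  K2 : (gf A (i - 1)).ev (lift (A (i - 1))) (lift (A (i - 1))) = 0
  K3 : (gf A (i - 1)).ev (lift (A i)) (lift (A i)) = 0
  K4 : (gf A (i - 1)).ev (lift m) (lift m) = 0
  L1 : (gf A (i + 1)).ev (lift (A i)) (lift (A i)) = 0
  L2 : (gf A (i + 1)).ev (lift (A (i + 1))) (lift (A (i + 1))) = 0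
  L3 : (gf A (i + 1)).ev (lift (A (i + 2))) (lift (A (i + 2))) = 0
  L4 : (gf A (i + 1)).ev (lift m) (lift m) = 0
  only : ∀ z, (gf A (i - 1)).ev (lift z) (lift z) = 0 → (gf A (i + 1)).ev (lift z) (lift z) = 0 →
    z = A i ∨ z = m
  ne : ¬ ∀ z : OnePoint ℂ, (gf A (i - 1)).ev (lift z) (lift z) = 0 ↔
    (gf A (i + 1)).ev (lift z) (lift z) = 0

theorem IsOther.data {A : ℤ → OnePoint ℂ} {i : ℤ} {m : OnePoint ℂ} (h : IsOther A i m) :
    OtherData A i m := by
  obtain ⟨S, T, hS, hT, hST, hint⟩ := h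
  have eK : gf A (i - 1) = cform (A (i - 2)) (A (i - 1)) (A i) := by
    unfold gf
    rw [show i - 1 - 1 = i - 2 by ring, show i - 1 + 1 = i by ring]
  have eL : gf A (i + 1) = cform (A i) (A (i + 1)) (A (i + 2)) := by
    unfold gf
    rw [show i + 1 - 1 = i by ring, show i + 1 + 1 = i + 2 by ring]
  obtain ⟨k1, k2⟩ := cform_spec hS
  obtain ⟨l1, l2⟩ := cform_spec hT
  rw [← eK] at k1 k2
  rw [← eL] at l1 l2
  obtain ⟨_, s1, s2, s3, s4, s5, s6⟩ := hS
  obtain ⟨_, t1, t2, t3, t4, t5, t6⟩ := hT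
  have hm : m ∈ S ∩ T := by rw [hint]; simp
  exact {
    d1 := s1, d2 := s2, d3 := s3, d4 := t1, d5 := t2, d6 := t3
    Knd := k1, Lnd := l1
    K1 := (k2 _).1 s4, K2 := (k2 _).1 s5, K3 := (k2 _).1 s6, K4 := (k2 _).1 hm.1
    L1 := (l2 _).1 t4, L2 := (l2 _).1 t5, L3 := (l2 _).1 t6, L4 := (l2 _).1 hm.2
    only := by
      intro z h1 h2
      have : z ∈ S ∩ T := ⟨(k2 z).2 h1, (l2 z).2 h2⟩
      rw [hint] at this
      simpa using this
    ne := by
      intro hall
      apply hST
      ext z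
      rw [k2 z, l2 z, hall z] }

/-- a vector version of a statement about points -/
theorem vec_of_points (K L : Herm) (b : OnePoint ℂ)
    (h : ∀ z, K.ev (lift z) (lift z) = 0 → L.ev (lift z) (lift z) = 0 → z = b)
    (u : ℂ × ℂ) (hK : K.ev u u = 0) (hL : L.ev u u = 0) : br u (lift b) = 0 := by
  by_cases hu : u = 0
  · subst hu; simp [br]
  · obtain ⟨p, s, hs, rfl⟩ := exists_point u hu
    rw [Herm.ev_smul_self] at hK hL
    have hs2 : conj s * s ≠ 0 := mul_ne_zero ((_root_.map_ne_zero _).2 hs) hs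
    have := h p ((mul_eq_zero.1 hK).resolve_left hs2) ((mul_eq_zero.1 hL).resolve_left hs2)
    subst this
    simp only [br, Prod.smul_fst, Prod.smul_snd, smul_eq_mul]
    ring

/-- data on one face -/
structure FaceData (K L M : Herm) (a b c w : OnePoint ℂ) : Prop where
  hab : a ≠ b
  hbc : b ≠ c
  Knd : K.Nondeg
  Lnd : L.Nondeg
  Mnd : M.Nondeg
  Ka : K.ev (lift a) (lift a) = 0
  Kb : K.ev (lift b) (lift b) = 0
  Kw : K.ev (lift w) (lift w) = 0
  Lb : L.ev (lift b) (lift b) = 0
  Lc : L.ev (lift c) (lift c) = 0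
  Lw : L.ev (lift w) (lift w) = 0
  Ma : M.ev (lift a) (lift a) = 0
  Mb : M.ev (lift b) (lift b) = 0
  Mc : M.ev (lift c) (lift c) = 0
  only : ∀ z, K.ev (lift z) (lift z) = 0 → L.ev (lift z) (lift z) = 0 → z = b ∨ z = w
  ne : ¬ ∀ z : OnePoint ℂ, K.ev (lift z) (lift z) = 0 ↔ L.ev (lift z) (lift z) = 0

variable {K L M : Herm} {a b c w : OnePoint ℂ}

theorem FaceData.lab_eq_of_tangent (h : FaceData K L M a b c b) :
    lab K M (lift a) (lift b) = lab M L (lift b) (lift c) := by
  have bab := br_lift_ne a b h.hab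
  have bbc := br_lift_ne b c h.hbc
  have k1 := K.ev_ne h.Knd _ _ h.Ka bab
  have m1 := M.ev_ne h.Mnd _ _ h.Ma bab
  have l2 := L.ev_ne h.Lnd _ _ h.Lb bbc
  -- L (a,b) ≠ 0 from L (b,c) ≠ 0
  have l1 : L.ev (lift a) (lift b) ≠ 0 := by
    intro h0
    have e := L.ev_bracket2 (lift a) (lift b) (lift c) (lift b)
    rw [h.Lb, mul_zero, add_zero, ← L.conj_ev (lift a) (lift b), h0, map_zero, mul_zero] at e
    exact l2 ((mul_eq_zero.1 e).resolve_left bab)
  exact lemT K L M _ _ _ bab bbc h.Ka h.Kb h.Lb h.Mb k1 m1 l1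
    (vec_of_points K L b (fun z h1 h2 => (h.only z h1 h2).elim id id))

theorem FaceData.rel (h : FaceData K L M a b c w) :
    lab K M (lift a) (lift b) * br (lift b) (lift c) * br (lift w) (lift a) =
      lab M L (lift b) (lift c) * br (lift w) (lift c) * br (lift b) (lift a) := by
  by_cases hwb : w = b
  · subst hwb
    rw [h.lab_eq_of_tangent]
  · have bab := br_lift_ne a b h.hab
    have bbc := br_lift_ne b c h.hbc
    exact lemA K L M _ _ _ _ bab bbc (br_lift_ne w b hwb) h.Ka h.Kb h.Kw h.Lb h.Lc h.Lw h.Ma h.Mb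
      h.Mc (K.ev_ne h.Knd _ _ h.Ka bab) (M.ev_ne h.Mnd _ _ h.Ma bab) (L.ev_ne h.Lnd _ _ h.Lb bbc)

theorem FaceData.nz (h : FaceData K L M a b c w) :
    ¬ (lab K M (lift a) (lift b) = 0 ∧ lab M L (lift b) (lift c) = 0) := by
  rintro ⟨h1, h2⟩
  have bab := br_lift_ne a b h.hab
  have bbc := br_lift_ne b c h.hbc
  exact h.ne fun z => lemNZ K L M _ _ _ bab bbc h.Ka h.Kb h.Lb h.Lc h.Ma h.Mb h.Mc
    (K.ev_ne h.Knd _ _ h.Ka bab) (M.ev_ne h.Mnd _ _ h.Ma bab) (M.ev_ne h.Mnd _ _ h.Mb bbc)
    (L.ev_ne h.Lnd _ _ h.Lb bbc) h1 h2 (lift z)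

theorem FaceData.nz' (h : FaceData K L M a b a w) :
    lab K M (lift a) (lift b) ≠ lab M L (lift b) (lift a) := by
  intro h1
  have bab := br_lift_ne a b h.hab
  exact h.ne fun z => lemEq K L M _ _ bab h.Ka h.Kb h.Lb h.Lc
    (K.ev_ne h.Knd _ _ h.Ka bab) (M.ev_ne h.Mnd _ _ h.Ma bab)
    (L.ev_ne h.Lnd _ _ h.Lc bab) h1 (lift z)

theorem FaceData.swap (h : FaceData K L M a b c w) (M' : Herm) (hM' : M'.Nondeg)
    (haw : a ≠ w) (hwc : w ≠ c) (hac : a ≠ c)
    (Ma' : M'.ev (lift a) (lift a) = 0) (Mw' : M'.ev (lift w) (lift w) = 0)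
    (Mc' : M'.ev (lift c) (lift c) = 0) :
    lab K M' (lift a) (lift w) = lab M L (lift b) (lift c) ∧
    lab M' L (lift w) (lift c) = lab K M (lift a) (lift b) := by
  have bab := br_lift_ne a b h.hab
  have bbc := br_lift_ne b c h.hbc
  have bac := br_lift_ne a c hac
  have baw := br_lift_ne a w haw
  have bwc := br_lift_ne w c hwc
  by_cases hwb : w = b
  · subst hwb
    have k1 := K.ev_ne h.Knd _ _ h.Ka bab
    have m1 := M.ev_ne h.Mnd _ _ h.Ma bab
    have m1' := M'.ev_ne hM' _ _ Ma' bab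
    have m2 := M.ev_ne h.Mnd _ _ h.Mb bbc
    have m2' := M'.ev_ne hM' _ _ Mw' bbc
    have l2 := L.ev_ne h.Lnd _ _ h.Lb bbc
    have bcb : br (lift c) (lift w) ≠ 0 := br_lift_ne c w h.hbc.symm
    have bba : br (lift w) (lift a) ≠ 0 := br_lift_ne w a h.hab.symm
    have ht := h.lab_eq_of_tangent
    have e1 : lab K M' (lift a) (lift w) = lab K M (lift a) (lift w) := by
      have p := prop_of_three M M' _ _ _ bac bcb h.Ma h.Mb h.Mc Ma' Mw' Mc'
      unfold lab
      have b1 := (_root_.map_ne_zero (starRingEnd ℂ)).2 k1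
      congr 1
      rw [div_eq_div_iff (mul_ne_zero b1 m1') (mul_ne_zero b1 m1)]
      linear_combination (-(K.ev (lift a) (lift w) * conj (K.ev (lift a) (lift w)))) * (-p)
    have e2 : lab M' L (lift w) (lift c) = lab M L (lift w) (lift c) := by
      have p := prop_of_three M M' (lift w) (lift c) (lift a) bba bac h.Mb h.Mc h.Ma Mw' Mc' Ma'
      unfold lab
      have b1 := (_root_.map_ne_zero (starRingEnd ℂ)).2 m2
      have b2 := (_root_.map_ne_zero (starRingEnd ℂ)).2 m2'
      congr 1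
      rw [div_eq_div_iff (mul_ne_zero b2 l2) (mul_ne_zero b1 l2)]
      linear_combination (-(L.ev (lift w) (lift c) * conj (L.ev (lift w) (lift c)))) * p
    exact ⟨e1.trans ht, e2.trans ht.symm⟩
  · have bbw := br_lift_ne b w (Ne.symm hwb)
    exact ⟨swap1 K L M M' _ _ _ _ bab bbc bac baw bwc bbw h.Ka h.Kb h.Kw h.Lb h.Lc h.Lw
        h.Ma h.Mb h.Mc Ma' Mw' Mc' (K.ev_ne h.Knd _ _ h.Ka baw) (M'.ev_ne hM' _ _ Ma' baw)
        (M.ev_ne h.Mnd _ _ h.Mb bbc) (L.ev_ne h.Lnd _ _ h.Lb bbc),
      swap2 K L M M' _ _ _ _ bab bbc bac baw bwc bbw h.Ka h.Kb h.Kw h.Lb h.Lc h.Lw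
        h.Ma h.Mb h.Mc Ma' Mw' Mc' (K.ev_ne h.Knd _ _ h.Ka bab) (M'.ev_ne hM' _ _ Mw' bwc)
        (M.ev_ne h.Mnd _ _ h.Ma bab) (L.ev_ne h.Lnd _ _ h.Lw bwc)⟩

end Geometry

/-! ### The dynamics -/

section Dynamics

open ComplexConjugate

/-- `N + 3 = n`. A run of the bipartite dynamics, started from a polygon with property (H). -/
structure Run (N : ℕ) (A : ℕ → ℤ → OnePoint ℂ) (O : OnePoint ℂ) : Prop where
  per : ∀ i, A 0 (i + 2 * ((N + 3 : ℕ) : ℤ)) = A 0 i
  H : ∀ i, ¬ Even i → IsOther (A 0) i O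
  step : ∀ t < 2 * N + 1, ∀ i : ℤ, Even (i + t) → IsOther (A t) i (A (t + 1) i)
  keep : ∀ t < 2 * N + 1, ∀ i : ℤ, ¬ Even (i + t) → A (t + 1) i = A t i

/-- circle forms -/
noncomputable def G (A : ℕ → ℤ → OnePoint ℂ) (s : ℕ) (j : ℤ) : Herm := gf (A (s - 1)) j

noncomputable def xL (A : ℕ → ℤ → OnePoint ℂ) (t : ℕ) (i : ℤ) : ℂ :=
  lab (G A (t + 1) (i - 1)) (G A t i) (lift (A t (i - 1))) (lift (A t i))

noncomputable def xR (A : ℕ → ℤ → OnePoint ℂ) (t : ℕ) (i : ℤ) : ℂ :=
  lab (G A t i) (G A (t + 1) (i + 1)) (lift (A t i)) (lift (A t (i + 1)))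

variable {N : ℕ} {A : ℕ → ℤ → OnePoint ℂ} {O : OnePoint ℂ}

theorem Run.mdata (h : Run N A O) (t : ℕ) (ht : t ≤ 2 * N + 1) (i : ℤ) (hi : Even (i + t)) :
    (G A t i).Nondeg ∧ (G A t i).ev (lift (A t (i - 1))) (lift (A t (i - 1))) = 0 ∧
      (G A t i).ev (lift (A t i)) (lift (A t i)) = 0 ∧
      (G A t i).ev (lift (A t (i + 1))) (lift (A t (i + 1))) = 0 := by
  cases t with
  | zero =>
    have hi' : Even i := by simpa using hi
    have ho : ¬ Even (i + 1) := by
      rw [Int.not_even_iff_odd]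
      exact hi'.add_one
    have d := (h.H (i + 1) ho).data
    have e1 : i + 1 - 1 = i := by ring
    have e2 : i + 1 - 2 = i - 1 := by ring
    have k1 := d.Knd
    have k2 := d.K1
    have k3 := d.K2
    have k4 := d.K3
    rw [e1] at k1 k2 k3 k4
    rw [e2] at k2
    exact ⟨k1, k2, k3, k4⟩
  | succ s =>
    have hs : s < 2 * N + 1 := by omega
    have p1 : Even (i + 1 + (s : ℤ)) := by
      have : i + 1 + (s : ℤ) = i + ((s + 1 : ℕ) : ℤ) := by push_cast; ring
      rw [this]; exact hi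
    have p2 : Even (i - 1 + (s : ℤ)) := by
      have : i - 1 + (s : ℤ) = i + ((s + 1 : ℕ) : ℤ) - 2 := by push_cast; ring
      rw [this]; exact hi.sub even_two
    have p3 : ¬ Even (i + (s : ℤ)) := by
      intro hcon
      have : Even ((1 : ℤ)) := by
        have := p1.sub hcon
        rwa [show i + 1 + (s : ℤ) - (i + s) = 1 by ring] at this
      exact absurd this (by decide)
    have d1 := (h.step s hs (i + 1) p1).data
    have d2 := (h.step s hs (i - 1) p2).data
    have e0 : A (s + 1) i = A s i := h.keep s hs i p3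
    have e1 : i + 1 - 1 = i := by ring
    have e2 : i - 1 + 1 = i := by ring
    have k1 := d1.Knd
    have k2 := d2.L4
    have k3 := d1.K2
    have k4 := d1.K4
    rw [e1] at k1 k3 k4
    rw [e2] at k2
    refine ⟨k1, k2, ?_, k4⟩
    rw [e0]
    exact k3

theorem Run.face (h : Run N A O) (t : ℕ) (ht : t < 2 * N + 1) (i : ℤ) (hi : Even (i + t)) :
    FaceData (G A (t + 1) (i - 1)) (G A (t + 1) (i + 1)) (G A t i)
      (A t (i - 1)) (A t i) (A t (i + 1)) (A (t + 1) i) := by
  have d := (h.step t ht i hi).data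
  obtain ⟨m1, m2, m3, m4⟩ := h.mdata t ht.le i hi
  exact { hab := d.d2, hbc := d.d4, Knd := d.Knd, Lnd := d.Lnd, Mnd := m1, Ka := d.K2,
          Kb := d.K3, Kw := d.K4, Lb := d.L1, Lc := d.L2, Lw := d.L4, Ma := m2, Mb := m3,
          Mc := m4, only := d.only, ne := d.ne }

theorem Run.faceH (h : Run N A O) (i : ℤ) (hi : ¬ Even i) :
    FaceData (gf (A 0) (i - 1)) (gf (A 0) (i + 1)) (gf (A 0) i)
      (A 0 (i - 1)) (A 0 i) (A 0 (i + 1)) O := by
  have d := (h.H i hi).data
  have hi' : Even (i - 1) := by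
    rw [Int.not_even_iff_odd] at hi
    exact hi.sub_odd odd_one
  have d' := (h.step 0 (by omega) (i - 1) (by simpa using hi')).data
  have e1 : i - 1 + 1 = i := by ring
  have e2 : i - 1 + 2 = i + 1 := by ring
  have m1 := d'.Lnd
  have m2 := d'.L1
  have m3 := d'.L2
  have m4 := d'.L3
  rw [e1] at m1 m2 m3 m4
  rw [e2] at m4
  exact { hab := d.d2, hbc := d.d4, Knd := d.Knd, Lnd := d.Lnd, Mnd := m1, Ka := d.K2,
          Kb := d.K3, Kw := d.K4, Lb := d.L1, Lc := d.L2, Lw := d.L4, Ma := m2, Mb := m3,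
          Mc := m4, only := d.only, ne := d.ne }

theorem parity_aux {i : ℤ} {t : ℕ} (hi : Even (i + t)) :
    ¬ Even (i - 1 + t) ∧ ¬ Even (i + 1 + t) ∧ Even (i + 1 + ((t + 1 : ℕ) : ℤ)) ∧
      Even (i - 1 + ((t + 1 : ℕ) : ℤ)) ∧ ¬ Even (i + ((t + 1 : ℕ) : ℤ)) := by
  refine ⟨?_, ?_, ?_, ?_, ?_⟩
  · rw [Int.not_even_iff_odd, show i - 1 + (t : ℤ) = i + t - 1 by ring]
    exact hi.sub_odd odd_one
  · rw [Int.not_even_iff_odd, show i + 1 + (t : ℤ) = i + t + 1 by ring]
    exact hi.add_one
  · rw [show i + 1 + ((t + 1 : ℕ) : ℤ) = i + t + 2 by push_cast; ring]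
    exact hi.add even_two
  · rw [show i - 1 + ((t + 1 : ℕ) : ℤ) = i + t by push_cast; ring]
    exact hi
  · rw [Int.not_even_iff_odd, show i + ((t + 1 : ℕ) : ℤ) = i + t + 1 by push_cast; ring]
    exact hi.add_one

/-- distinctness at a non-final face, and exchange of labels -/
theorem Run.next (h : Run N A O) (t : ℕ) (ht : t + 1 < 2 * N + 1) (i : ℤ) (hi : Even (i + t)) :
    A t (i - 1) ≠ A (t + 1) i ∧ A (t + 1) i ≠ A t (i + 1) ∧ A t (i - 1) ≠ A t (i + 1) ∧
      xR A (t + 1) (i - 1) = xR A t i ∧ xL A (t + 1) (i + 1) = xL A t i := by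
  obtain ⟨q1, q2, q3, q4, q5⟩ := parity_aux hi
  have d := (h.step (t + 1) ht (i + 1) q3).data
  have ka := h.keep t (by omega) (i - 1) q1
  have kc := h.keep t (by omega) (i + 1) q2
  have e1 : i + 1 - 1 = i := by ring
  have e2 : i + 1 - 2 = i - 1 := by ring
  have d1 := d.d1
  have d2 := d.d2
  have d3 := d.d3
  have k0 := d.Knd
  have k1 := d.K1
  have k2 := d.K2
  have k3 := d.K3
  rw [e1, e2, ka] at d1
  rw [e1, kc] at d2
  rw [e2, ka, kc] at d3
  rw [e1] at k0 k1 k2 k3
  rw [e2, ka] at k1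
  rw [kc] at k3
  have f := h.face t (by omega) i hi
  obtain ⟨s1, s2⟩ := f.swap (gf (A (t + 1)) i) k0 d1 d2 d3 k1 k2 k3
  refine ⟨d1, d2, d3, ?_, ?_⟩
  · unfold xR
    rw [show i - 1 + 1 = i by ring, ka]
    exact s1
  · unfold xL
    rw [show i + 1 - 1 = i by ring, kc]
    exact s2

/-- constant polynomial vectors -/
noncomputable def cP (u : ℂ × ℂ) : ℂ[X] × ℂ[X] := (C u.1, C u.2)

theorem br_cP (u v : ℂ × ℂ) : br (cP u) (cP v) = C (br u v) := by
  simp [br, cP]

theorem br_cP_coeff (v : ℂ[X] × ℂ[X]) (z : ℂ × ℂ) (j : ℕ) :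
    (br v (cP z)).coeff j = v.1.coeff j * z.2 - v.2.coeff j * z.1 := by
  simp [br, cP]

/-- degree condition at time `τ` -/
def Deg (N τ : ℕ) (v : ℂ[X] × ℂ[X]) (z : ℂ × ℂ) : Prop :=
  (∀ j, N + 1 - τ / 2 < j → v.1.coeff j = 0 ∧ v.2.coeff j = 0) ∧
  (Odd τ → (br v (cP z)).coeff (N + 1 - τ / 2) = 0)

structure Inv (N : ℕ) (A : ℕ → ℤ → OnePoint ℂ) (t : ℕ) (v : ℤ → ℂ[X] × ℂ[X]) : Prop where
  nz : ∃ i, v i ≠ 0
  relL : ∀ i : ℤ, Even (i + t) → Rel X (cP (lift (A t i))) (cP (lift (A t (i - 1))))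
    (C (xL A t i)) (v i) (v (i - 1))
  relR : ∀ i : ℤ, Even (i + t) → Rel X (cP (lift (A t i))) (cP (lift (A t (i + 1))))
    (C (xR A t i)) (v i) (v (i + 1))
  degB : ∀ i : ℤ, Even (i + t) → Deg N (t + 1) (v i) (lift (A t i))
  degT : ∀ i : ℤ, ¬ Even (i + t) → Deg N (t + 2) (v i) (lift (A t i))

/-- the new vector at the replaced vertex -/
noncomputable def newV (a c : ℂ × ℂ) (va vc : ℂ[X] × ℂ[X]) : ℂ[X] × ℂ[X] :=
  (C (br a c)⁻¹ * (br vc (cP c) * C a.1 - br va (cP a) * C c.1),
   C (br a c)⁻¹ * (br vc (cP c) * C a.2 - br va (cP a) * C c.2))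

theorem newV_coeff (a c : ℂ × ℂ) (va vc : ℂ[X] × ℂ[X]) (j : ℕ)
    (h1 : (br va (cP a)).coeff j = 0) (h2 : (br vc (cP c)).coeff j = 0) :
    (newV a c va vc).1.coeff j = 0 ∧ (newV a c va vc).2.coeff j = 0 := by
  constructor <;> simp only [newV, coeff_C_mul, coeff_sub, coeff_mul_C, h1, h2] <;> ring

theorem rel_coeff {p q : ℂ × ℂ} {x : ℂ} {vp vq : ℂ[X] × ℂ[X]} (hp : p ≠ 0)
    (h : Rel X (cP p) (cP q) (C x) vp vq) (D : ℕ)
    (h1 : vp.1.coeff (D + 1) = 0 ∧ vp.2.coeff (D + 1) = 0)
    (h2 : vq.1.coeff (D + 1) = 0 ∧ vq.2.coeff (D + 1) = 0) :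
    x = 0 ∨ (br vq (cP q)).coeff D = 0 := by
  have e1 := congrArg (fun P => coeff P (D + 1)) h.one
  have e2 := congrArg (fun P => coeff P (D + 1)) h.two
  have r1 : X * C x * br vq (cP q) * (cP p).1 = X * (C x * br vq (cP q) * C p.1) := by
    simp only [cP]; ring
  have r2 : X * C x * br vq (cP q) * (cP p).2 = X * (C x * br vq (cP q) * C p.2) := by
    simp only [cP]; ring
  rw [r1] at e1
  rw [r2] at e2
  simp only [br_cP, coeff_add, coeff_C_mul, coeff_X_mul, coeff_mul_C, h1.1, h1.2, h2.1, h2.2,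
    mul_zero, zero_add] at e1 e2
  by_contra hcon
  push Not at hcon
  apply hp
  have hne : x * (br vq (cP q)).coeff D ≠ 0 := mul_ne_zero hcon.1 hcon.2
  apply Prod.ext
  · exact (mul_eq_zero.1 e1.symm).resolve_left hne
  · exact (mul_eq_zero.1 e2.symm).resolve_left hne

theorem Inv.next (h : Run N A O) (t : ℕ) (ht : t + 1 < 2 * N + 1) (v : ℤ → ℂ[X] × ℂ[X])
    (hv : Inv N A t v) : ∃ v', Inv N A (t + 1) v' := by
  classical
  obtain ⟨v', hv'⟩ : ∃ v' : ℤ → ℂ[X] × ℂ[X], v' = fun j : ℤ => if Even (j + t) then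
    newV (lift (A t (j - 1))) (lift (A t (j + 1))) (v (j - 1)) (v (j + 1)) else v j := ⟨_, rfl⟩
  have veven : ∀ j : ℤ, Even (j + t) → v' j =
      newV (lift (A t (j - 1))) (lift (A t (j + 1))) (v (j - 1)) (v (j + 1)) := by
    intro j hj; rw [hv']; simp only [if_pos hj]
  have vodd : ∀ j : ℤ, ¬ Even (j + t) → v' j = v j := by
    intro j hj; rw [hv']; simp only [if_neg hj]
  -- relations at a face
  have key : ∀ i : ℤ, Even (i + t) →
      Rel X (cP (lift (A t (i - 1)))) (cP (lift (A (t + 1) i))) (C (xR A t i)) (v (i - 1)) (v' i) ∧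
      Rel X (cP (lift (A t (i + 1)))) (cP (lift (A (t + 1) i))) (C (xL A t i)) (v (i + 1)) (v' i) := by
    intro i hi
    obtain ⟨d1, d2, d3, _, _⟩ := h.next t ht i hi
    have f := h.face t (by omega) i hi
    have bba : br (cP (lift (A t i))) (cP (lift (A t (i - 1)))) ≠ 0 := by
      rw [br_cP, Ne, C_eq_zero]
      exact br_lift_ne _ _ f.hab.symm
    have bbc : br (cP (lift (A t i))) (cP (lift (A t (i + 1)))) ≠ 0 := by
      rw [br_cP, Ne, C_eq_zero]
      exact br_lift_ne _ _ f.hbc
    have bac := br_lift_ne _ _ d3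
    have hg : C (br (lift (A t (i - 1))) (lift (A t (i + 1))))⁻¹ *
        br (cP (lift (A t (i - 1)))) (cP (lift (A t (i + 1)))) = 1 := by
      rw [br_cP, ← C_mul, inv_mul_cancel₀ bac, C_1]
    have hR : C (xL A t i) * br (cP (lift (A t i))) (cP (lift (A t (i + 1)))) *
        br (cP (lift (A (t + 1) i))) (cP (lift (A t (i - 1)))) =
        C (xR A t i) * br (cP (lift (A (t + 1) i))) (cP (lift (A t (i + 1)))) *
        br (cP (lift (A t i))) (cP (lift (A t (i - 1)))) := by
      simp only [br_cP, ← C_mul]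
      exact congrArg C f.rel
    constructor
    · exact propagate X _ _ _ _ _ _ _ _ _ _ _ bba bbc hg hR (hv.relL i hi) (hv.relR i hi)
        (by rw [veven i hi]; rfl) (by rw [veven i hi]; rfl)
    · exact propagate' X _ _ _ _ _ _ _ _ _ _ _ bba bbc hg hR (hv.relL i hi) (hv.relR i hi)
        (by rw [veven i hi]; rfl) (by rw [veven i hi]; rfl)
  refine ⟨v', ?_, ?_, ?_, ?_, ?_⟩
  · -- nonzero
    obtain ⟨i, hi⟩ := hv.nz
    by_cases hp : Even (i + t)
    · obtain ⟨q1, _⟩ := parity_aux hp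
      refine ⟨i - 1, ?_⟩
      rw [vodd _ q1]
      intro h0
      apply hi
      have f := h.face t (by omega) i hp
      have bba := br_lift_ne _ _ f.hab.symm
      have r := hv.relL i hp
      have r1 := r.one
      have r2 := r.two
      rw [h0] at r1 r2
      have hbr : br (0 : ℂ[X] × ℂ[X]) (cP (lift (A t (i - 1)))) = 0 := by simp [br]
      rw [hbr, br_cP] at r1 r2
      simp only [Prod.fst_zero, Prod.snd_zero, mul_zero, zero_mul, add_zero] at r1 r2
      have hC : C (br (lift (A t i)) (lift (A t (i - 1)))) ≠ 0 := by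
        rw [Ne, C_eq_zero]; exact bba
      exact Prod.ext ((mul_eq_zero.1 r1).resolve_left hC) ((mul_eq_zero.1 r2).resolve_left hC)
    · exact ⟨i, by rw [vodd _ hp]; exact hi⟩
  · -- relL
    intro j hj
    have hi : Even (j - 1 + t) := by
      have : j - 1 + (t : ℤ) = j + ((t + 1 : ℕ) : ℤ) - 2 := by push_cast; ring
      rw [this]; exact hj.sub even_two
    obtain ⟨q1, q2, _⟩ := parity_aux hi
    rw [show j - 1 + 1 = j by ring] at q2
    have k := (key (j - 1) hi).2
    obtain ⟨_, _, _, _, s⟩ := h.next t ht (j - 1) hi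
    rw [show j - 1 + 1 = j by ring] at k s
    rw [vodd j q2, h.keep t (by omega) j q2, s]
    exact k
  · -- relR
    intro j hj
    have hi : Even (j + 1 + t) := by
      have : j + 1 + (t : ℤ) = j + ((t + 1 : ℕ) : ℤ) := by push_cast; ring
      rw [this]; exact hj
    obtain ⟨q1, q2, _⟩ := parity_aux hi
    rw [show j + 1 - 1 = j by ring] at q1
    have k := (key (j + 1) hi).1
    obtain ⟨_, _, _, s, _⟩ := h.next t ht (j + 1) hi
    rw [show j + 1 - 1 = j by ring] at k s
    rw [vodd j q1, h.keep t (by omega) j q1, s]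
    exact k
  · -- degB
    intro j hj
    have hp : ¬ Even (j + t) := by
      intro hcon
      exact (parity_aux hcon).2.2.2.2 hj
    rw [vodd j hp, h.keep t (by omega) j hp]
    exact hv.degT j hp
  · -- degT
    intro j hj
    have hp : Even (j + t) := by
      by_contra hcon
      apply hj
      rw [Int.not_even_iff_odd] at hcon
      rw [show j + ((t + 1 : ℕ) : ℤ) = j + t + 1 by push_cast; ring]
      exact hcon.add_one
    obtain ⟨q1, q2, _⟩ := parity_aux hp
    have ta := hv.degT (j - 1) q1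
    have tc := hv.degT (j + 1) q2
    have f := h.face t (by omega) j hp
    rcases Nat.even_or_odd (t + 2) with hev | hodd
    · -- degree unchanged
      have hD : (t + 1 + 2) / 2 = (t + 2) / 2 := by
        obtain ⟨m, hm⟩ := hev; omega
      have hlow : ∀ l, N + 1 - (t + 2) / 2 < l →
          (v' j).1.coeff l = 0 ∧ (v' j).2.coeff l = 0 := by
        intro l hl
        rw [veven j hp]
        apply newV_coeff
        · rw [br_cP_coeff, (ta.1 l hl).1, (ta.1 l hl).2]; ring
        · rw [br_cP_coeff, (tc.1 l hl).1, (tc.1 l hl).2]; ring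
      refine ⟨?_, ?_⟩
      · rw [hD]; exact hlow
      · intro _
        rw [hD]
        obtain ⟨k1, k2⟩ := key j hp
        have c1 := rel_coeff (lift_ne_zero _) k1 (N + 1 - (t + 2) / 2) (ta.1 _ (by omega))
          (hlow _ (by omega))
        have c2 := rel_coeff (lift_ne_zero _) k2 (N + 1 - (t + 2) / 2) (tc.1 _ (by omega))
          (hlow _ (by omega))
        rcases c1 with c1 | c1
        · rcases c2 with c2 | c2
          · exact absurd ⟨c2, c1⟩ f.nz
          · exact c2
        · exact c1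
    · -- degree drops
      have hD : N + 1 - (t + 1 + 2) / 2 + 1 = N + 1 - (t + 2) / 2 := by
        obtain ⟨m, hm⟩ := hodd; omega
      refine ⟨?_, ?_⟩
      · intro l hl
        rw [veven j hp]
        have hl' : N + 1 - (t + 2) / 2 ≤ l := by omega
        rcases Nat.lt_or_ge (N + 1 - (t + 2) / 2) l with hlt | hge
        · apply newV_coeff
          · rw [br_cP_coeff, (ta.1 l hlt).1, (ta.1 l hlt).2]; ring
          · rw [br_cP_coeff, (tc.1 l hlt).1, (tc.1 l hlt).2]; ring
        · have : l = N + 1 - (t + 2) / 2 := by omega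
          subst this
          exact newV_coeff _ _ _ _ _ (ta.2 hodd) (tc.2 hodd)
      · intro hcon
        exfalso
        obtain ⟨m, hm⟩ := hodd
        obtain ⟨m', hm'⟩ := hcon
        omega

end Dynamics


section Final

open ComplexConjugate

variable {N : ℕ} {A : ℕ → ℤ → OnePoint ℂ} {O : OnePoint ℂ}

theorem Inv.exists_last (h : Run N A O) (v : ℤ → ℂ[X] × ℂ[X]) (hv : Inv N A 0 v) (t : ℕ)
    (ht : t < 2 * N + 1) : ∃ v', Inv N A t v' := by
  induction t with
  | zero => exact ⟨v, hv⟩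
  | succ t ih =>
    obtain ⟨w, hw⟩ := ih (by omega)
    exact hw.next h t ht w

theorem br_perp {w α u : ℂ × ℂ} (x y : ℂ) (a c : ℂ × ℂ)
    (h1 : x * br w a = y * br w c) (h2 : x * br α a = y * br α c) (hne : br w α ≠ 0) :
    x * br u a = y * br u c := by
  have e : ∀ z : ℂ × ℂ, br w α * br u z = br u α * br w z + br w u * br α z := by
    intro z; simp only [br]; ring
  apply mul_left_cancel₀ hne
  linear_combination x * e a - y * e c + br u α * h1 + br w u * h2

theorem final_face {K L M : Herm} {a b c w : OnePoint ℂ} (f : FaceData K L M a b c w)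
    (α : ℂ × ℂ) (hα : lab K M (lift a) (lift b) * br (lift b) (lift c) * br α (lift a) =
      lab M L (lift b) (lift c) * br (lift b) (lift a) * br α (lift c)) :
    br (lift w) α = 0 := by
  by_contra hne
  have bba := br_lift_ne _ _ f.hab.symm
  have bbc := br_lift_ne _ _ f.hbc
  have hw := f.rel
  have hall : ∀ u : ℂ × ℂ, lab K M (lift a) (lift b) * br (lift b) (lift c) * br u (lift a) =
      lab M L (lift b) (lift c) * br (lift b) (lift a) * br u (lift c) := fun u =>
    br_perp _ _ _ _ (by linear_combination hw) hα hne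
  by_cases hac : a = c
  · subst hac
    have h1 := hall (lift b)
    have h2 : lab K M (lift a) (lift b) = lab M L (lift b) (lift a) := by
      apply mul_right_cancel₀ (mul_ne_zero bba bba)
      linear_combination h1
    exact f.nz' h2
  · have bac := br_lift_ne _ _ hac
    have bca := br_lift_ne _ _ (Ne.symm hac)
    have h1 := hall (lift c)
    have h2 := hall (lift a)
    have s1 : br (lift c) (lift c) = 0 := by simp only [br]; ring
    have s2 : br (lift a) (lift a) = 0 := by simp only [br]; ring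
    rw [s1, mul_zero] at h1
    rw [s2, mul_zero] at h2
    apply f.nz
    constructor
    · exact (mul_eq_zero.1 ((mul_eq_zero.1 h1).resolve_right bca)).resolve_right bbc
    · exact (mul_eq_zero.1 ((mul_eq_zero.1 h2.symm).resolve_right bac)).resolve_right bba

theorem final (h : Run N A O) (v : ℤ → ℂ[X] × ℂ[X]) (hv : Inv N A (2 * N) v) :
    ∀ i j : ℤ, Even i → Even j → A (2 * N + 1) i = A (2 * N + 1) j := by
  have hlt : 2 * N < 2 * N + 1 := by omega
  have par : ∀ i : ℤ, Even (i + ((2 * N : ℕ) : ℤ)) ↔ Even i := by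
    intro i
    push_cast
    rw [Int.even_add]
    simp
  -- tops are constants
  have top : ∀ i : ℤ, ¬ Even i → v i = cP ((v i).1.coeff 0, (v i).2.coeff 0) := by
    intro i hi
    have d := (hv.degT i (by rw [par]; exact hi)).1
    have e : N + 1 - (2 * N + 2) / 2 = 0 := by omega
    rw [e] at d
    apply Prod.ext
    · apply Polynomial.ext
      intro j
      rcases Nat.eq_zero_or_pos j with rfl | hj
      · simp [cP]
      · rw [(d j hj).1]; simp [cP, coeff_C, hj.ne']
    · apply Polynomial.ext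
      intro j
      rcases Nat.eq_zero_or_pos j with rfl | hj
      · simp [cP]
      · rw [(d j hj).2]; simp [cP, coeff_C, hj.ne']
  -- value at zero
  have val0 : ∀ (p q : ℂ × ℂ) (x : ℂ) (vp vq : ℂ[X] × ℂ[X]), br p q ≠ 0 →
      Rel X (cP p) (cP q) (C x) vp vq → vp.1.coeff 0 = vq.1.coeff 0 ∧
        vp.2.coeff 0 = vq.2.coeff 0 := by
    intro p q x vp vq hpq r
    have e1 := congrArg (fun P => coeff P 0) r.one
    have e2 := congrArg (fun P => coeff P 0) r.two
    have r1 : X * C x * br vq (cP q) * (cP p).1 = X * (C x * br vq (cP q) * C p.1) := by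
      simp only [cP]; ring
    have r2 : X * C x * br vq (cP q) * (cP p).2 = X * (C x * br vq (cP q) * C p.2) := by
      simp only [cP]; ring
    rw [r1] at e1
    rw [r2] at e2
    simp only [br_cP, coeff_add, coeff_C_mul, coeff_X_mul_zero, add_zero] at e1 e2
    exact ⟨mul_left_cancel₀ hpq e1, mul_left_cancel₀ hpq e2⟩
  have val1 : ∀ (p q α : ℂ × ℂ) (x : ℂ) (vp : ℂ[X] × ℂ[X]),
      Rel X (cP p) (cP q) (C x) vp (cP α) →
      br p q * vp.1.coeff 1 = x * br α q * p.1 ∧ br p q * vp.2.coeff 1 = x * br α q * p.2 := by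
    intro p q α x vp r
    have e1 := congrArg (fun P => coeff P 1) r.one
    have e2 := congrArg (fun P => coeff P 1) r.two
    have r1 : X * C x * br (cP α) (cP q) * (cP p).1 = X * C (x * br α q * p.1) := by
      rw [br_cP]; simp only [cP, C_mul]; ring
    have r2 : X * C x * br (cP α) (cP q) * (cP p).2 = X * C (x * br α q * p.2) := by
      rw [br_cP]; simp only [cP, C_mul]; ring
    rw [r1] at e1
    rw [r2] at e2
    simp only [br_cP, coeff_add, coeff_C_mul] at e1 e2
    simpa [cP, coeff_C, coeff_X_mul, coeff_one] using And.intro e1 e2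
  obtain ⟨α, hα⟩ : ∃ α : ℤ → ℂ × ℂ, α = fun i => ((v i).1.coeff 0, (v i).2.coeff 0) := ⟨_, rfl⟩
  have hα' : ∀ i, α i = ((v i).1.coeff 0, (v i).2.coeff 0) := fun i => by rw [hα]
  have adj : ∀ i : ℤ, Even i → α (i - 1) = α i ∧ α (i + 1) = α i := by
    intro i hi
    have f := h.face (2 * N) hlt i ((par i).2 hi)
    have l := val0 _ _ _ _ _ (br_lift_ne _ _ f.hab.symm) (hv.relL i ((par i).2 hi))
    have r := val0 _ _ _ _ _ (br_lift_ne _ _ f.hbc) (hv.relR i ((par i).2 hi))
    constructor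
    · rw [hα', hα', l.1, l.2]
    · rw [hα', hα', r.1, r.2]
  have adj' : ∀ i : ℤ, α (i + 1) = α i := by
    intro i
    rcases Int.even_or_odd i with hi | hi
    · exact (adj i hi).2
    · have := (adj (i + 1) hi.add_one).1
      rw [show i + 1 - 1 = i by ring] at this
      exact this.symm
  have hconst : ∀ i : ℤ, α i = α 0 := by
    intro i
    induction i using Int.induction_on with
    | zero => rfl
    | succ i ih => rw [adj' i]; exact ih
    | pred i ih =>
      have := adj' (-(i : ℤ) - 1)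
      rw [show -(i : ℤ) - 1 + 1 = -i by ring] at this
      rw [← this]; exact ih
  have hα0 : α 0 ≠ 0 := by
    intro h0
    obtain ⟨i, hi⟩ := hv.nz
    have hodd : ∀ j : ℤ, ¬ Even j → v j = 0 := by
      intro j hj
      rw [top j hj]
      have : ((v j).1.coeff 0, (v j).2.coeff 0) = (0 : ℂ × ℂ) := by
        rw [← hα' j, hconst j, h0]
      rw [this]
      simp [cP]
    by_cases hp : Even i
    · apply hi
      have f := h.face (2 * N) hlt i ((par i).2 hp)
      have r := hv.relL i ((par i).2 hp)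
      have ho : ¬ Even (i - 1) := by
        rw [Int.not_even_iff_odd]; exact hp.sub_odd odd_one
      have hz : v (i - 1) = 0 := hodd _ ho
      have r1 := r.one
      have r2 := r.two
      rw [hz] at r1 r2
      have hbr : br (0 : ℂ[X] × ℂ[X]) (cP (lift (A (2 * N) (i - 1)))) = 0 := by simp [br]
      rw [hbr, br_cP] at r1 r2
      simp only [Prod.fst_zero, Prod.snd_zero, mul_zero, zero_mul, add_zero] at r1 r2
      have hC : C (br (lift (A (2 * N) i)) (lift (A (2 * N) (i - 1)))) ≠ 0 := by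
        rw [Ne, C_eq_zero]; exact br_lift_ne _ _ f.hab.symm
      exact Prod.ext ((mul_eq_zero.1 r1).resolve_left hC) ((mul_eq_zero.1 r2).resolve_left hC)
    · exact hi (hodd i hp)
  have main : ∀ i : ℤ, Even i → br (lift (A (2 * N + 1) i)) (α 0) = 0 := by
    intro i hi
    have hi' := (par i).2 hi
    have f := h.face (2 * N) hlt i hi'
    have o1 : ¬ Even (i - 1) := by
      rw [Int.not_even_iff_odd]; exact hi.sub_odd odd_one
    have o2 : ¬ Even (i + 1) := by
      rw [Int.not_even_iff_odd]; exact hi.add_one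
    have r1 := hv.relL i hi'
    have r2 := hv.relR i hi'
    rw [top _ o1, ← hα' (i - 1), hconst (i - 1)] at r1
    rw [top _ o2, ← hα' (i + 1), hconst (i + 1)] at r2
    have c1 := val1 _ _ _ _ _ r1
    have c2 := val1 _ _ _ _ _ r2
    apply final_face f (α 0)
    have hb := lift_ne_zero (A (2 * N) i)
    by_contra hcon
    have hsub := sub_ne_zero.2 hcon
    apply hb
    have hL : xL A (2 * N) i = lab (G A (2 * N + 1) (i - 1)) (G A (2 * N) i)
      (lift (A (2 * N) (i - 1))) (lift (A (2 * N) i)) := rfl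
    have hRr : xR A (2 * N) i = lab (G A (2 * N) i) (G A (2 * N + 1) (i + 1))
      (lift (A (2 * N) i)) (lift (A (2 * N) (i + 1))) := rfl
    rw [← hL, ← hRr] at hsub
    apply Prod.ext
    · apply mul_left_cancel₀ hsub
      rw [Prod.fst_zero, mul_zero]
      linear_combination (br (lift (A (2 * N) i)) (lift (A (2 * N) (i - 1)))) * c2.1 -
        (br (lift (A (2 * N) i)) (lift (A (2 * N) (i + 1)))) * c1.1
    · apply mul_left_cancel₀ hsub
      rw [Prod.snd_zero, mul_zero]
      linear_combination (br (lift (A (2 * N) i)) (lift (A (2 * N) (i - 1)))) * c2.2 -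
        (br (lift (A (2 * N) i)) (lift (A (2 * N) (i + 1)))) * c1.2
  intro i j hi hj
  rw [← br_lift_eq_zero]
  have m1 := main i hi
  have m2 := main j hj
  by_contra hne
  apply hα0
  have e : ∀ k : ℂ × ℂ → ℂ, (k = Prod.fst ∨ k = Prod.snd) →
      br (lift (A (2 * N + 1) i)) (lift (A (2 * N + 1) j)) * k (α 0) =
      br (lift (A (2 * N + 1) i)) (α 0) * k (lift (A (2 * N + 1) j)) -
      br (lift (A (2 * N + 1) j)) (α 0) * k (lift (A (2 * N + 1) i)) := by
    intro k hk
    rcases hk with rfl | rfl <;> simp only [br] <;> ring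
  apply Prod.ext
  · have := e _ (Or.inl rfl)
    rw [m1, m2, zero_mul, zero_mul, sub_zero] at this
    exact (mul_eq_zero.1 this).resolve_left hne
  · have := e _ (Or.inr rfl)
    rw [m1, m2, zero_mul, zero_mul, sub_zero] at this
    exact (mul_eq_zero.1 this).resolve_left hne

end Final


section Initial

open ComplexConjugate

variable {N : ℕ} {A : ℕ → ℤ → OnePoint ℂ} {O : OnePoint ℂ}

theorem exists_E (o : ℂ × ℂ) (ho : o ≠ 0) : ∃ E : ℂ × ℂ, br E o = 1 := by
  by_cases h2 : o.2 = 0
  · have h1 : o.1 ≠ 0 := fun h1 => ho (Prod.ext h1 h2)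
    refine ⟨(0, -(o.1)⁻¹), ?_⟩
    simp only [br]
    field_simp
    ring
  · refine ⟨((o.2)⁻¹, 0), ?_⟩
    simp only [br]
    field_simp
    ring

theorem top_rel (a r c o E : ℂ × ℂ) (x y : ℂ) (har : br a r ≠ 0) (hrc : br r c ≠ 0)
    (hEO : br E o = 1) (hR : x * br r c * br o a = y * br o c * br r a) :
    (x * br c r / br a r) * br a o = y * br c o ∧
    (-(y * br E c / br r c * br r E + x * br E r / br a r * br a E)) * br c o =
      x * br c E - (x * br c r / br a r) * br a E := by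
  have hra : br r a = - br a r := br_swap r a
  have hoa : br o a = - br a o := br_swap o a
  have hoc : br o c = - br c o := br_swap o c
  have hcr : br c r = - br r c := br_swap c r
  rw [hra, hoa, hoc] at hR
  have s2 : (x * br c r / br a r) * br a o = y * br c o := by
    rw [hcr]
    field_simp
    linear_combination hR
  refine ⟨s2, ?_⟩
  have e1 : -(y * br E c / br r c * br r E + x * br E r / br a r * br a E) * br c o =
      -(br E c / br r c * br r E) * (y * br c o) - x * br E r / br a r * br a E * br c o := by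
    ring
  rw [e1, ← s2, hcr]
  have pl : br E c * br r E * br a o - br E r * br a E * br c o =
      br c E * br a r + br r c * br a E := by
    have : br E c * br r E * br a o - br E r * br a E * br c o =
      br E o * (br c E * br a r + br r c * br a E) := by
      simp only [br]; ring
    rw [this, hEO, one_mul]
  field_simp
  linear_combination x * pl

/-- The data of the initial polygon. -/
structure InitData (N : ℕ) (p r : ℤ → ℂ × ℂ) (o E : ℂ × ℂ) (K M : ℤ → Herm) : Prop where
  pp : ∀ k, p (k + ((N + 3 : ℕ) : ℤ)) = p k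
  pr : ∀ k, r (k + ((N + 3 : ℕ) : ℤ)) = r k
  pK : ∀ k, K (k + ((N + 3 : ℕ) : ℤ)) = K k
  pM : ∀ k, M (k + ((N + 3 : ℕ) : ℤ)) = M k
  hEO : br E o = 1
  har : ∀ k, br (p k) (r k) ≠ 0
  hrc : ∀ k, br (r k) (p (k + 1)) ≠ 0
  hac : ∀ k, br (p k) (p (k + 1)) ≠ 0
  Knd : ∀ k, (K k).Nondeg
  Mnd : ∀ k, (M k).Nondeg
  Kp : ∀ k, (K k).ev (p k) (p k) = 0
  Kr : ∀ k, (K k).ev (r k) (r k) = 0
  Kr' : ∀ k, (K (k + 1)).ev (r k) (r k) = 0
  Ko : ∀ k, (K k).ev o o = 0
  Mp : ∀ k, (M k).ev (p k) (p k) = 0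
  Mr : ∀ k, (M k).ev (r k) (r k) = 0
  Mp' : ∀ k, (M k).ev (p (k + 1)) (p (k + 1)) = 0
  R : ∀ k, lab (K k) (M k) (p k) (r k) * br (r k) (p (k + 1)) * br o (p k) =
    lab (M k) (K (k + 1)) (r k) (p (k + 1)) * br o (p (k + 1)) * br (r k) (p k)

theorem init_sections (p r : ℤ → ℂ × ℂ) (o E : ℂ × ℂ) (K M : ℤ → Herm)
    (D : InitData N p r o E K M) :
    ∃ V : ℤ → ℂ[X] × ℂ[X], (∃ k, V k ≠ 0) ∧ (∀ k, Deg N 1 (V k) (p k)) ∧
      ∀ k,
        (1 + X * C (lab (M k) (K (k + 1)) (r k) (p (k + 1)))) * (V k).1 = (V (k + 1)).1 +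
          X * C (lab (M k) (K (k + 1)) (r k) (p (k + 1))) * C (br (r k) (p (k + 1)))⁻¹ *
            br (V (k + 1)) (cP (p (k + 1))) * (cP (r k)).1 +
          X * C (lab (K k) (M k) (p k) (r k)) * C (br (p k) (r k))⁻¹ *
            br (V (k + 1)) (cP (r k)) * (cP (p k)).1 ∧
        (1 + X * C (lab (M k) (K (k + 1)) (r k) (p (k + 1)))) * (V k).2 = (V (k + 1)).2 +
          X * C (lab (M k) (K (k + 1)) (r k) (p (k + 1))) * C (br (r k) (p (k + 1)))⁻¹ *
            br (V (k + 1)) (cP (p (k + 1))) * (cP (r k)).2 +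
          X * C (lab (K k) (M k) (p k) (r k)) * C (br (p k) (r k))⁻¹ *
            br (V (k + 1)) (cP (r k)) * (cP (p k)).2 := by
  obtain ⟨x, hx⟩ : ∃ x : ℤ → ℂ, x = fun k => lab (K k) (M k) (p k) (r k) := ⟨_, rfl⟩
  obtain ⟨y, hy⟩ : ∃ y : ℤ → ℂ, y = fun k => lab (M k) (K (k + 1)) (r k) (p (k + 1)) := ⟨_, rfl⟩
  have hx' : ∀ k, lab (K k) (M k) (p k) (r k) = x k := fun k => by rw [hx]
  have hy' : ∀ k, lab (M k) (K (k + 1)) (r k) (p (k + 1)) = y k := fun k => by rw [hy]
  have R := D.R
  simp only [hx', hy'] at R ⊢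
  obtain ⟨γ, hγ⟩ : ∃ γ : ℤ → ℂ, γ = fun k =>
    -(y k * br E (p (k + 1)) / br (r k) (p (k + 1)) * br (r k) E +
      x k * br E (r k) / br (p k) (r k) * br (p k) E) := ⟨_, rfl⟩
  have hγ' : ∀ k, -(y k * br E (p (k + 1)) / br (r k) (p (k + 1)) * br (r k) E +
      x k * br E (r k) / br (p k) (r k) * br (p k) E) = γ k := fun k => by rw [hγ]
  have tO : ∀ k, o + (y k * br o (p (k + 1)) / br (r k) (p (k + 1))) • r k +
      (x k * br o (r k) / br (p k) (r k)) • p k = (1 + x k) • o := fun k =>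
    triO (p k) (r k) (p (k + 1)) o (x k) (y k) (D.har k) (D.hrc k) (R k)
  have tE : ∀ k, E + (y k * br E (p (k + 1)) / br (r k) (p (k + 1))) • r k +
      (x k * br E (r k) / br (p k) (r k)) • p k = (1 + y k) • E + γ k • o := fun k => by
    rw [← hγ' k]
    exact triE (p k) (r k) (p (k + 1)) o E (x k) (y k) (D.har k) (D.hrc k) D.hEO (R k)
  -- periodicity
  have pp1 : ∀ k, p (k + ((N + 3 : ℕ) : ℤ) + 1) = p (k + 1) := fun k => by
    rw [show k + ((N + 3 : ℕ) : ℤ) + 1 = k + 1 + ((N + 3 : ℕ) : ℤ) by ring, D.pp]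
  have pK1 : ∀ k, K (k + ((N + 3 : ℕ) : ℤ) + 1) = K (k + 1) := fun k => by
    rw [show k + ((N + 3 : ℕ) : ℤ) + 1 = k + 1 + ((N + 3 : ℕ) : ℤ) by ring, D.pK]
  have px : ∀ k, x (k + ((N + 3 : ℕ) : ℤ)) = x k := fun k => by
    rw [← hx', ← hx', D.pp, D.pr, D.pK, D.pM]
  have py : ∀ k, y (k + ((N + 3 : ℕ) : ℤ)) = y k := fun k => by
    rw [← hy', ← hy', D.pr, D.pM, pp1, pK1]
  have pγ : ∀ k, γ (k + ((N + 3 : ℕ) : ℤ)) = γ k := fun k => by
    rw [← hγ', ← hγ', D.pr, D.pp, pp1, px, py]
  -- the closing relations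
  have hboE : br o E ≠ 0 := by rw [br_swap, D.hEO]; norm_num
  obtain ⟨ε, hε⟩ : ∃ ε : ℤ → ℂ, ε = fun k => (K k).ev o E := ⟨_, rfl⟩
  have hε' : ∀ k, (K k).ev o E = ε k := fun k => by rw [hε]
  have ε0 : ∀ k, ε k ≠ 0 := fun k => by
    rw [← hε']; exact (K k).ev_ne (D.Knd k) _ _ (D.Ko k) hboE
  have hεc : ∀ k, (K k).ev E o = conj (ε k) := fun k => by rw [← hε', (K k).conj_ev]
  have pε : ∀ k, ε (k + ((N + 3 : ℕ) : ℤ)) = ε k := fun k => by rw [← hε', ← hε', D.pK]
  obtain ⟨F, hF⟩ : ∃ F : ℤ → ℂ, F = fun k => (K k).ev E E := ⟨_, rfl⟩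
  have hF' : ∀ k, (K k).ev E E = F k := fun k => by rw [hF]
  have pF : ∀ k, F (k + ((N + 3 : ℕ) : ℤ)) = F k := fun k => by rw [← hF', ← hF', D.pK]
  have lin : ∀ (H : Herm) (u : ℂ × ℂ) (s t : ℂ), H.ev u (s • E + t • o) =
      s * H.ev u E + t * H.ev u o := by
    intro H u s t
    simp only [Herm.ev, Prod.fst_add, Prod.snd_add, Prod.smul_fst, Prod.smul_snd, smul_eq_mul]
    ring
  have lin1 : ∀ (H : Herm) (u : ℂ × ℂ) (s : ℂ), H.ev u (s • o) = s * H.ev u o := by
    intro H u s
    simp only [Herm.ev, Prod.smul_fst, Prod.smul_snd, smul_eq_mul]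
    ring
  have clos : ∀ k, ∃ τ : ℂ, τ * ((1 + x k) * conj (ε k)) = conj (ε (k + 1)) ∧
      τ * ((1 + y k) * ε k) = ε (k + 1) ∧
      τ * ((1 + y k) * F k + γ k * conj (ε k)) = F (k + 1) := by
    intro k
    have n1 := (K k).ev_ne (D.Knd k) _ _ (D.Kp k) (D.har k)
    have n2 := (M k).ev_ne (D.Mnd k) _ _ (D.Mp k) (D.har k)
    have n3 := (M k).ev_ne (D.Mnd k) _ _ (D.Mr k) (D.hrc k)
    have n4 := (K (k + 1)).ev_ne (D.Knd (k + 1)) _ _ (D.Kr' k) (D.hrc k)
    have T := fun u v => transfer2 (K k) (M k) (K (k + 1)) (p k) (r k) (p (k + 1)) u v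
      (D.har k) (D.hrc k) (D.Kp k) (D.Kr k) (D.Mp k) (D.Mr k) (D.Mp' k) (D.Kr' k)
      (D.Kp (k + 1)) n1 n2 n3 n4
    simp only [hx', hy'] at T
    refine ⟨(K (k + 1)).ev (r k) (p (k + 1)) / (M k).ev (r k) (p (k + 1)) *
        ((M k).ev (p k) (r k) / (K k).ev (p k) (r k)), ?_, ?_, ?_⟩
    · have := T E o
      rw [tO k, lin1, hεc, hεc] at this
      exact this
    · have := T o E
      rw [tE k, lin, hε', hε', D.Ko, mul_zero, add_zero] at this
      exact this
    · have := T E E
      rw [tE k, lin, hF', hF', hεc] at this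
      exact this
  have y1 : ∀ k, 1 + y k ≠ 0 := by
    intro k h0
    obtain ⟨τ, _, h2, _⟩ := clos k
    rw [h0, zero_mul, mul_zero] at h2
    exact ε0 (k + 1) h2.symm
  have εc0 : ∀ k, conj (ε k) ≠ 0 := fun k => (_root_.map_ne_zero _).2 (ε0 k)
  obtain ⟨m, hm⟩ : ∃ m : ℤ → ℂ, m = fun k => conj (ε k) / ((1 + y k) * ε k) := ⟨_, rfl⟩
  have hm' : ∀ k, m k = conj (ε k) / ((1 + y k) * ε k) := fun k => by rw [hm]
  obtain ⟨S, hS⟩ : ∃ S : ℤ → ℂ, S = fun k => F k / ε k := ⟨_, rfl⟩
  have hS' : ∀ k, S k = F k / ε k := fun k => by rw [hS]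
  have pm : ∀ k, m (k + ((N + 3 : ℕ) : ℤ)) = m k := fun k => by rw [hm', hm', pε, py]
  have pS : ∀ k, S (k + ((N + 3 : ℕ) : ℤ)) = S k := fun k => by rw [hS', hS', pε, pF]
  have mrel : ∀ k, m k * (1 + x k) = m (k + 1) * (1 + y (k + 1)) := by
    intro k
    obtain ⟨τ, h1, h2, _⟩ := clos k
    have hτ : τ ≠ 0 := by
      intro h0
      rw [h0, zero_mul] at h2
      exact ε0 (k + 1) h2.symm
    have a1 := y1 k
    have a2 := y1 (k + 1)
    have a3 := ε0 k
    have a4 := ε0 (k + 1)
    rw [hm', hm']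
    have e : conj (ε (k + 1)) / ((1 + y (k + 1)) * ε (k + 1)) * (1 + y (k + 1)) =
        conj (ε (k + 1)) / ε (k + 1) := by field_simp
    rw [e, ← h1, ← h2]
    field_simp
  have mγ : ∀ k, m k * γ k = S (k + 1) - S k := by
    intro k
    obtain ⟨τ, h1, h2, h3⟩ := clos k
    have hτ : τ ≠ 0 := by
      intro h0
      rw [h0, zero_mul] at h2
      exact ε0 (k + 1) h2.symm
    have a1 := y1 k
    have a3 := ε0 k
    rw [hm', hS', hS', ← h3, ← h2]
    field_simp
    ring
  have m0 : m 0 ≠ 0 := by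
    rw [hm']
    exact div_ne_zero (εc0 0) (mul_ne_zero (y1 0) (ε0 0))
  -- the top vector
  have topv : ∃ (φ : ℤ → ℂ) (η : ℂ), (∀ k, φ (k + ((N + 3 : ℕ) : ℤ)) = φ k) ∧
      (∀ k, x k * φ (k + 1) + γ k * η = y k * φ k) ∧ (¬ (η = 0 ∧ ∀ k, φ k = 0)) ∧
      ∀ k, η * br E (p k) + φ k * br o (p k) = 0 := by
    by_cases hall : ∀ k, br (p k) o ≠ 0
    · refine ⟨fun k => - br (p k) E / br (p k) o, 1, ?_, ?_, ?_, ?_⟩
      · intro k; simp only [D.pp]
      · intro k
        obtain ⟨s1, s2⟩ := top_rel (p k) (r k) (p (k + 1)) o E (x k) (y k) (D.har k) (D.hrc k)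
          D.hEO (R k)
        rw [hγ' k] at s2
        have b1 := hall k
        have b2 := hall (k + 1)
        show x k * (- br (p (k + 1)) E / br (p (k + 1)) o) + γ k * 1 =
          y k * (- br (p k) E / br (p k) o)
        have e1 : γ k = (x k * br (p (k + 1)) E - (x k * br (p (k + 1)) (r k) / br (p k) (r k)) *
          br (p k) E) / br (p (k + 1)) o := by
          rw [eq_div_iff b2]; exact s2
        have e2 : y k = (x k * br (p (k + 1)) (r k) / br (p k) (r k)) * br (p k) o /
          br (p (k + 1)) o := by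
          rw [eq_div_iff b2]; exact s1.symm
        rw [e1, e2]
        have b3 := D.har k
        field_simp
        ring
      · rintro ⟨z, _⟩
        exact one_ne_zero z
      · intro k
        have b1 := hall k
        show 1 * br E (p k) + (- br (p k) E / br (p k) o) * br o (p k) = 0
        rw [br_swap o (p k), br_swap E (p k)]
        field_simp
        ring
    · push Not at hall
      obtain ⟨k0, hk0⟩ := hall
      have hpar : ∀ k, ((N + 3 : ℕ) : ℤ) ∣ k - k0 → br (p k) o = 0 := by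
        intro k ⟨j, hj⟩
        have hp : Function.Periodic p ((N + 3 : ℕ) : ℤ) := D.pp
        have := hp.int_mul j k0
        have e : p k = p k0 := by
          rw [← this]
          congr 1
          simp only [Int.cast_id]
          linear_combination hj
        rw [e]; exact hk0
      -- if p k is parallel to o, then the other brackets are nonzero
      have nonpar : ∀ u w : ℂ × ℂ, br u w ≠ 0 → br u o = 0 → br o w ≠ 0 := by
        intro u w huw huo how
        apply huw
        have e : br E o * br u w = br u o * br E w + br o w * br E u := by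
          simp only [br]; ring
        rw [D.hEO, one_mul, huo, how, zero_mul, zero_mul, add_zero] at e
        exact e
      have hy0 : ∀ k, br (p k) o = 0 → y k = 0 := by
        intro k hk
        have h1 := R k
        rw [br_swap o (p k), hk, neg_zero, mul_zero] at h1
        have h2 := nonpar _ _ (D.hac k) hk
        have h3 : br (r k) (p k) ≠ 0 := by rw [br_swap]; exact neg_ne_zero.2 (D.har k)
        exact (mul_eq_zero.1 ((mul_eq_zero.1 h1.symm).resolve_right h3)).resolve_right h2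
      have hx0 : ∀ k, br (p (k + 1)) o = 0 → x k = 0 := by
        intro k hk
        have h1 := R k
        rw [br_swap o (p (k + 1)), hk, neg_zero, mul_zero, zero_mul] at h1
        have h4 : br (p (k + 1)) (p k) ≠ 0 := by rw [br_swap]; exact neg_ne_zero.2 (D.hac k)
        have h2 := nonpar _ _ h4 hk
        exact (mul_eq_zero.1 ((mul_eq_zero.1 h1).resolve_right h2)).resolve_right (D.hrc k)
      classical
      refine ⟨fun k => if ((N + 3 : ℕ) : ℤ) ∣ k - k0 then 1 else 0, 0, ?_, ?_, ?_, ?_⟩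
      · intro k
        have : ((N + 3 : ℕ) : ℤ) ∣ k + ((N + 3 : ℕ) : ℤ) - k0 ↔ ((N + 3 : ℕ) : ℤ) ∣ k - k0 := by
          rw [show k + ((N + 3 : ℕ) : ℤ) - k0 = k - k0 + ((N + 3 : ℕ) : ℤ) by ring]
          exact dvd_add_self_right
        simp only [this]
      · intro k
        show x k * (if ((N + 3 : ℕ) : ℤ) ∣ k + 1 - k0 then (1 : ℂ) else 0) + γ k * 0 =
          y k * (if ((N + 3 : ℕ) : ℤ) ∣ k - k0 then (1 : ℂ) else 0)
        rw [mul_zero, add_zero]
        by_cases c1 : ((N + 3 : ℕ) : ℤ) ∣ k + 1 - k0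
        · have z1 := hx0 k (hpar _ c1)
          have c2 : ¬ ((N + 3 : ℕ) : ℤ) ∣ k - k0 := by
            intro c2
            have c3 := dvd_sub c1 c2
            rw [show k + 1 - k0 - (k - k0) = 1 by ring] at c3
            have := Int.le_of_dvd one_pos c3
            push_cast at this
            omega
          rw [if_neg c2, z1]; ring
        · rw [if_neg c1]
          by_cases c2 : ((N + 3 : ℕ) : ℤ) ∣ k - k0
          · rw [hy0 k (hpar _ c2)]; ring
          · rw [if_neg c2]; ring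
      · rintro ⟨_, z⟩
        have := z k0
        simp at this
      · intro k
        by_cases c2 : ((N + 3 : ℕ) : ℤ) ∣ k - k0
        · rw [br_swap o (p k), hpar _ c2]; ring
        · simp only [if_neg c2]; ring
  obtain ⟨φ, η, pφ, ht1, ht2, ht3⟩ := topv
  obtain ⟨t, h, f, g0, g1, g2, g3, g4, g5⟩ := exists_sections_int N x y γ φ m S η px py pγ pφ pm pS
    ht1 ht2 mrel mγ m0
  refine ⟨fun k => (h * C E.1 + f k * C o.1, h * C E.2 + f k * C o.2), ?_, ?_, ?_⟩
  · by_contra hcon
    push Not at hcon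
    apply g0
    have e1 : ∀ k, h * C E.1 + f k * C o.1 = 0 := fun k => congrArg Prod.fst (hcon k)
    have e2 : ∀ k, h * C E.2 + f k * C o.2 = 0 := fun k => congrArg Prod.snd (hcon k)
    have hC : C E.1 * C o.2 - C E.2 * C o.1 = (1 : ℂ[X]) := by
      have := congrArg C D.hEO
      simpa [br] using this
    have hh : h = 0 := by
      linear_combination C o.2 * e1 0 - C o.1 * e2 0 - h * hC
    refine ⟨hh, fun k => ?_⟩
    linear_combination C E.1 * e2 k - C E.2 * e1 k - f k * hC
  · intro k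
    refine ⟨?_, ?_⟩
    · intro j hj
      have hj' : N + 1 < j := by simpa using hj
      constructor
      · simp [g1 j hj', g2 k j hj']
      · simp [g1 j hj', g2 k j hj']
    · intro _
      rw [br_cP_coeff]
      have e : N + 1 - 1 / 2 = N + 1 := by norm_num
      rw [e]
      simp only [coeff_add, coeff_mul_C, g3, g4]
      have := ht3 k
      simp only [br] at this
      linear_combination t * this
  · intro k
    have E1 := congrArg (fun u : ℂ × ℂ => (C u.1 : ℂ[X])) (tE k)
    have E2 := congrArg (fun u : ℂ × ℂ => (C u.2 : ℂ[X])) (tE k)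
    have O1 := congrArg (fun u : ℂ × ℂ => (C u.1 : ℂ[X])) (tO k)
    have O2 := congrArg (fun u : ℂ × ℂ => (C u.2 : ℂ[X])) (tO k)
    simp only [Prod.fst_add, Prod.snd_add, Prod.smul_fst, Prod.smul_snd, smul_eq_mul, C_add,
      C_mul, C_1, div_eq_mul_inv] at E1 E2 O1 O2
    have g := g5 k
    simp only [defect] at g
    have hb : ∀ (z : ℂ × ℂ) (F : ℂ[X]), br (h * C E.1 + F * C o.1, h * C E.2 + F * C o.2) (cP z) =
        h * C (br E z) + F * C (br o z) := by
      intro z F
      simp only [br, cP, C_sub, C_mul]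
      ring
    simp only [hb]
    simp only [cP]
    constructor
    · linear_combination (-(X * h)) * E1 - (X * f (k + 1)) * O1 - C o.1 * g
    · linear_combination (-(X * h)) * E2 - (X * f (k + 1)) * O2 - C o.2 * g

end Initial


section Assemble

variable {N : ℕ} {A : ℕ → ℤ → OnePoint ℂ} {O : OnePoint ℂ}

theorem Run.gf_per (h : Run N A O) (i : ℤ) : gf (A 0) (i + 2 * ((N + 3 : ℕ) : ℤ)) = gf (A 0) i := by
  unfold gf
  rw [show i + 2 * ((N + 3 : ℕ) : ℤ) - 1 = i - 1 + 2 * ((N + 3 : ℕ) : ℤ) by ring,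
    show i + 2 * ((N + 3 : ℕ) : ℤ) + 1 = i + 1 + 2 * ((N + 3 : ℕ) : ℤ) by ring, h.per, h.per, h.per]

theorem Run.init (h : Run N A O) : ∃ v, Inv N A 0 v := by
  classical
  obtain ⟨E, hE⟩ := exists_E (lift O) (lift_ne_zero O)
  have odd2 : ∀ k : ℤ, ¬ Even (2 * k + 1) := fun k => by
    rw [Int.not_even_iff_odd]; exact ⟨k, rfl⟩
  have i1 : ∀ k : ℤ, 2 * k + 1 - 1 = 2 * k := fun k => by ring
  have i2 : ∀ k : ℤ, 2 * k + 1 + 1 = 2 * (k + 1) := fun k => by ring
  have F : ∀ k : ℤ, FaceData (gf (A 0) (2 * k)) (gf (A 0) (2 * (k + 1))) (gf (A 0) (2 * k + 1))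
      (A 0 (2 * k)) (A 0 (2 * k + 1)) (A 0 (2 * (k + 1))) O := fun k => by
    have f := h.faceH (2 * k + 1) (odd2 k)
    rw [i1, i2] at f
    exact f
  have ev2 : ∀ k : ℤ, Even (2 * k + ((0 : ℕ) : ℤ)) := fun k => by simp
  have D : InitData N (fun k => lift (A 0 (2 * k))) (fun k => lift (A 0 (2 * k + 1))) (lift O) E
      (fun k => gf (A 0) (2 * k)) (fun k => gf (A 0) (2 * k + 1)) := by
    refine { pp := fun k => ?_, pr := fun k => ?_, pK := fun k => ?_, pM := fun k => ?_,
             hEO := hE, har := fun k => br_lift_ne _ _ (F k).hab,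
             hrc := fun k => br_lift_ne _ _ (F k).hbc, hac := fun k => ?_,
             Knd := fun k => (F k).Knd, Mnd := fun k => (F k).Mnd, Kp := fun k => (F k).Ka,
             Kr := fun k => (F k).Kb, Kr' := fun k => (F k).Lb, Ko := fun k => (F k).Kw,
             Mp := fun k => (F k).Ma, Mr := fun k => (F k).Mb, Mp' := fun k => (F k).Mc,
             R := fun k => ?_ }
    · show lift (A 0 (2 * (k + ((N + 3 : ℕ) : ℤ)))) = lift (A 0 (2 * k))
      rw [mul_add, h.per]
    · show lift (A 0 (2 * (k + ((N + 3 : ℕ) : ℤ)) + 1)) = lift (A 0 (2 * k + 1))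
      rw [show 2 * (k + ((N + 3 : ℕ) : ℤ)) + 1 = 2 * k + 1 + 2 * ((N + 3 : ℕ) : ℤ) by ring, h.per]
    · show gf (A 0) (2 * (k + ((N + 3 : ℕ) : ℤ))) = gf (A 0) (2 * k)
      rw [mul_add, h.gf_per]
    · show gf (A 0) (2 * (k + ((N + 3 : ℕ) : ℤ)) + 1) = gf (A 0) (2 * k + 1)
      rw [show 2 * (k + ((N + 3 : ℕ) : ℤ)) + 1 = 2 * k + 1 + 2 * ((N + 3 : ℕ) : ℤ) by ring, h.gf_per]
    · have d := (h.step 0 (by omega) (2 * k) (ev2 k)).data
      have := d.d6
      rw [show 2 * k + 2 = 2 * (k + 1) by ring] at this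
      exact br_lift_ne _ _ this
    · exact (F k).rel
  obtain ⟨V, ⟨k1, hk1⟩, hdeg, hN⟩ := init_sections _ _ _ _ _ _ D
  obtain ⟨v, hv⟩ : ∃ v : ℤ → ℂ[X] × ℂ[X], v = fun i : ℤ => if Even i then V (i / 2) else
    newV (lift (A 0 (i - 1))) (lift (A 0 (i + 1))) (V ((i - 1) / 2)) (V ((i + 1) / 2)) := ⟨_, rfl⟩
  have ve : ∀ k : ℤ, v (2 * k) = V k := fun k => by
    rw [hv]
    simp only [if_pos (even_two_mul k)]
    rw [Int.mul_ediv_cancel_left k two_ne_zero]
  have vo : ∀ k : ℤ, v (2 * k + 1) = newV (lift (A 0 (2 * k))) (lift (A 0 (2 * (k + 1)))) (V k)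
      (V (k + 1)) := fun k => by
    rw [hv]
    simp only [if_neg (odd2 k)]
    rw [i1, i2, Int.mul_ediv_cancel_left k two_ne_zero, Int.mul_ediv_cancel_left _ two_ne_zero]
  have rels : ∀ k : ℤ,
      Rel X (cP (lift (A 0 (2 * k)))) (cP (lift (A 0 (2 * k + 1))))
        (C (lab (gf (A 0) (2 * k)) (gf (A 0) (2 * k + 1)) (lift (A 0 (2 * k)))
          (lift (A 0 (2 * k + 1))))) (V k) (v (2 * k + 1)) ∧
      Rel X (cP (lift (A 0 (2 * (k + 1))))) (cP (lift (A 0 (2 * k + 1))))
        (C (lab (gf (A 0) (2 * k + 1)) (gf (A 0) (2 * (k + 1))) (lift (A 0 (2 * k + 1)))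
          (lift (A 0 (2 * (k + 1)))))) (V (k + 1)) (v (2 * k + 1)) := by
    intro k
    have har := D.har k
    have hrc := D.hrc k
    have hac := D.hac k
    have hg : C (br (lift (A 0 (2 * k))) (lift (A 0 (2 * (k + 1)))))⁻¹ *
        br (cP (lift (A 0 (2 * k)))) (cP (lift (A 0 (2 * (k + 1))))) = 1 := by
      rw [br_cP, ← C_mul, inv_mul_cancel₀ hac, C_1]
    have hu1 : C (br (lift (A 0 (2 * k + 1))) (lift (A 0 (2 * (k + 1)))))⁻¹ *
        br (cP (lift (A 0 (2 * k + 1)))) (cP (lift (A 0 (2 * (k + 1))))) = 1 := by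
      rw [br_cP, ← C_mul, inv_mul_cancel₀ hrc, C_1]
    have hu2 : C (br (lift (A 0 (2 * k))) (lift (A 0 (2 * k + 1))))⁻¹ *
        br (cP (lift (A 0 (2 * k)))) (cP (lift (A 0 (2 * k + 1)))) = 1 := by
      rw [br_cP, ← C_mul, inv_mul_cancel₀ har, C_1]
    apply initial_r X _ _ _ _ _ _ _ _ _ _ _ _ hg hu1 hu2 (hN k).1 (hN k).2
    · rw [vo k]; rfl
    · rw [vo k]; rfl
    · intro h0
      have := congrArg (fun P => coeff P 0) h0
      simp at this
  refine ⟨v, ⟨2 * k1, by rw [ve]; exact hk1⟩, ?_, ?_, ?_, ?_⟩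
  · intro i hi
    have hi' : Even i := by simpa using hi
    obtain ⟨k, hk⟩ : ∃ k : ℤ, i = 2 * (k + 1) := by
      obtain ⟨j, hj⟩ := hi'
      exact ⟨j - 1, by rw [hj]; ring⟩
    subst hk
    have r := (rels k).2
    unfold xL
    rw [show 2 * (k + 1) - 1 = 2 * k + 1 by ring, ve]
    exact r
  · intro i hi
    have hi' : Even i := by simpa using hi
    obtain ⟨k, hk⟩ : ∃ k : ℤ, i = 2 * k := by
      obtain ⟨j, hj⟩ := hi'
      exact ⟨j, by rw [hj]; ring⟩
    subst hk
    have r := (rels k).1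
    unfold xR
    rw [ve]
    exact r
  · intro i hi
    have hi' : Even i := by simpa using hi
    obtain ⟨k, hk⟩ : ∃ k : ℤ, i = 2 * k := by
      obtain ⟨j, hj⟩ := hi'
      exact ⟨j, by rw [hj]; ring⟩
    subst hk
    rw [ve]
    exact hdeg k
  · intro i hi
    have hi' : Odd i := by
      rw [← Int.not_even_iff_odd]
      simpa using hi
    obtain ⟨k, hk⟩ := hi'
    subst hk
    rw [vo k]
    have e : N + 1 - (0 + 2) / 2 = N := by norm_num
    refine ⟨?_, ?_⟩
    · intro j hj
      rw [e] at hj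
      have da := hdeg k
      have dc := hdeg (k + 1)
      have e1 : N + 1 - 1 / 2 = N + 1 := by norm_num
      apply newV_coeff
      · rcases Nat.lt_or_ge (N + 1) j with hlt | hge
        · rw [br_cP_coeff, (da.1 j (by rw [e1]; exact hlt)).1, (da.1 j (by rw [e1]; exact hlt)).2]
          ring
        · have : j = N + 1 - 1 / 2 := by omega
          rw [this]
          exact da.2 odd_one
      · rcases Nat.lt_or_ge (N + 1) j with hlt | hge
        · rw [br_cP_coeff, (dc.1 j (by rw [e1]; exact hlt)).1, (dc.1 j (by rw [e1]; exact hlt)).2]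
          ring
        · have : j = N + 1 - 1 / 2 := by omega
          rw [this]
          exact dc.2 odd_one
    · intro hcon
      exact absurd hcon (by decide)

theorem Run.conclusion (h : Run N A O) :
    ∀ i j : ℤ, Even i → Even j → A (2 * N + 1) i = A (2 * N + 1) j := by
  obtain ⟨v, hv⟩ := h.init
  obtain ⟨w, hw⟩ := Inv.exists_last h v hv (2 * N) (by omega)
  exact final h w hw

end Assemble

theorem IsOther.shift {A : ℤ → OnePoint ℂ} {c i : ℤ} {m : OnePoint ℂ} (h : IsOther A (i + c) m) :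
    IsOther (fun j => A (j + c)) i m := by
  obtain ⟨S, T, h1, h2, h3, h4⟩ := h
  refine ⟨S, T, ?_, ?_, h3, h4⟩
  · rw [show i + c - 2 = i - 2 + c by ring, show i + c - 1 = i - 1 + c by ring] at h1
    exact h1
  · rw [show i + c + 2 = i + 2 + c by ring, show i + c + 1 = i + 1 + c by ring] at h2
    exact h2

/-- **Devron property of bipartite circle intersection.** -/
theorem devron (n : ℕ) (hn : 3 ≤ n) (c : ℤ) (A : ℕ → ℤ → OnePoint ℂ)
    (hper : ∀ i, A 0 (i + 2 * n) = A 0 i) (hH : HasH (A 0) (c + 1))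
    (hstep : ∀ t < 2 * n - 6, BipartiteStep (c + t) (A t) (A (t + 1)))
    (hdef : ∀ i, Even (i - c) → ∃ m, IsOther (A (2 * n - 6)) i m) :
    HasH (A (2 * n - 6)) c := by
  classical
  obtain ⟨N, rfl⟩ : ∃ N, n = N + 3 := ⟨n - 3, by omega⟩
  have e6 : 2 * (N + 3) - 6 = 2 * N := by omega
  rw [e6] at hstep hdef ⊢
  obtain ⟨O, hO⟩ := hH
  have hch : ∀ i, ∃ m, Even (i - c) → IsOther (A (2 * N)) i m := by
    intro i
    by_cases hi : Even (i - c)
    · obtain ⟨m, hm⟩ := hdef i hi
      exact ⟨m, fun _ => hm⟩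
    · exact ⟨O, fun hi' => absurd hi' hi⟩
  choose m hm using hch
  obtain ⟨A', hA'⟩ : ∃ A' : ℕ → ℤ → OnePoint ℂ, A' = fun t i => if t ≤ 2 * N then A t (i + c) else
    if Even i then m (i + c) else A (2 * N) (i + c) := ⟨_, rfl⟩
  have a1 : ∀ t, t ≤ 2 * N → A' t = fun i => A t (i + c) := by
    intro t ht
    rw [hA']; simp only [if_pos ht]
  have a2 : A' (2 * N + 1) = fun i => if Even i then m (i + c) else A (2 * N) (i + c) := by
    rw [hA']
    have : ¬ (2 * N + 1 ≤ 2 * N) := by omega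
    simp only [if_neg this]
  have par : ∀ (i : ℤ) (t : ℕ), Even (i + c - (c + t)) ↔ Even (i + t) := by
    intro i t
    rw [show i + c - (c + (t : ℤ)) = i - t by ring, Int.even_sub, Int.even_add]
  have par2 : ∀ i : ℤ, Even (i + ((2 * N : ℕ) : ℤ)) ↔ Even i := by
    intro i
    push_cast
    rw [Int.even_add]
    simp
  have hrun : Run N A' O := by
    refine ⟨?_, ?_, ?_, ?_⟩
    · intro i
      rw [a1 0 (Nat.zero_le _)]
      show A 0 (i + 2 * ((N + 3 : ℕ) : ℤ) + c) = A 0 (i + c)
      rw [show i + 2 * ((N + 3 : ℕ) : ℤ) + c = i + c + 2 * ((N + 3 : ℕ) : ℤ) by ring, hper]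
    · intro i hi
      rw [a1 0 (Nat.zero_le _)]
      apply IsOther.shift
      apply hO
      rw [show i + c - (c + 1) = i - 1 by ring]
      rw [Int.not_even_iff_odd] at hi
      exact hi.sub_odd odd_one
    · intro t ht i hi
      rcases Nat.lt_or_ge t (2 * N) with hlt | hge
      · rw [a1 t hlt.le, a1 (t + 1) hlt]
        exact ((hstep t hlt (i + c)).1 ((par i t).2 hi)).shift
      · have : t = 2 * N := by omega
        subst this
        rw [a1 _ le_rfl, a2]
        have hi' : Even i := (par2 i).1 hi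
        simp only [if_pos hi']
        apply IsOther.shift
        apply hm
        rw [show i + c - c = i by ring]
        exact hi'
    · intro t ht i hi
      rcases Nat.lt_or_ge t (2 * N) with hlt | hge
      · rw [a1 t hlt.le, a1 (t + 1) hlt]
        exact (hstep t hlt (i + c)).2 (fun hcon => hi ((par i t).1 hcon))
      · have : t = 2 * N := by omega
        subst this
        rw [a1 _ le_rfl, a2]
        have hi' : ¬ Even i := fun hcon => hi ((par2 i).2 hcon)
        simp only [if_neg hi']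
  have hc := hrun.conclusion
  refine ⟨m c, ?_⟩
  intro i hi
  have h1 := hc (i - c) 0 hi (by simp)
  rw [a2] at h1
  simp only [if_pos hi, zero_add, show i - c + c = i by ring] at h1
  rw [if_pos (by simp)] at h1
  rw [← h1]
  exact hm i hi


end Pool.Agent.Circ543
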